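import Mathlib

set_option autoImplicit false

/-!
# CM types and Tate classes: definitions
-/

namespace Pool.Agent.CMT

open NumberField

/-- an algebraic closure of the rational numbers -/
abbrev QBar : Type := AlgebraicClosure ℚ

/-- CM types of the CM field `K`: sets of embeddings which contain exactly one embedding of each
pair of complex conjugate embeddings -/
def IsCMType (K : Type) [Field K] [NumberField K] [IsCMField K] (Φ : Finset (K →+* QBar)) : Prop :=
  ∀ φ : K →+* QBar, φ ∈ Φ ↔ φ.comp (IsCMField.complexConj K : K →+* K) ∉ Φ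

/-- Primitive CM types of a Galois CM field: no non-trivial automorphism of the field preserves the
type (the criterion of Shimura and Taniyama for the simplicity of the abelian variety). -/
def IsPrimitive {K : Type} [Field K] [NumberField K] (Φ : Finset (K →+* QBar)) : Prop :=
  ∀ σ : K ≃ₐ[ℚ] K, (∀ φ ∈ Φ, φ.comp (σ : K →+* K) ∈ Φ) → σ = 1

/-- Pohlmann's description of the Tate classes of codimension `i` on the `n`-th power of an abelian
variety of CM type `(K, Φ)`: the eigenlines in the cohomology of degree `2 i` are given by the sets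
`Δ` of `2 i` pairs (embedding, index), and the line of `Δ` consists of Tate classes if and only if
for every Galois automorphism `τ` exactly `i` members of `Δ` are carried by `τ` into `Φ`. -/
def TateWeight {K : Type} [Field K] (Φ : Finset (K →+* QBar)) {n : ℕ} (i : ℕ)
    (Δ : Finset ((K →+* QBar) × Fin n)) : Prop :=
  Δ.card = 2 * i ∧ ∀ τ : QBar ≃+* QBar,
    {p : (K →+* QBar) × Fin n | p ∈ Δ ∧ (τ : QBar →+* QBar).comp p.1 ∈ Φ}.ncard = i

/-- `Δ` is a disjoint union of Tate weights of codimension one: the line of `Δ` is spanned by a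
product of divisor classes. -/
def Divisorial {K : Type} [Field K] (Φ : Finset (K →+* QBar)) {n : ℕ}
    (Δ : Finset ((K →+* QBar) × Fin n)) : Prop :=
  ∃ D : Finset (Finset ((K →+* QBar) × Fin n)),
    (D : Set (Finset ((K →+* QBar) × Fin n))).PairwiseDisjoint id ∧
    (∀ p, p ∈ Δ ↔ ∃ B ∈ D, p ∈ B) ∧ ∀ B ∈ D, TateWeight Φ 1 B

/-- all Tate classes, of all codimensions on all powers, are generated by divisor classes -/
def TateByDivisors {K : Type} [Field K] (Φ : Finset (K →+* QBar)) : Prop :=
  ∀ (n i : ℕ) (Δ : Finset ((K →+* QBar) × Fin n)), TateWeight Φ i Δ → Divisorial Φ Δ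

/-- the number of cyclic subfields of degree `k` that are not real -/
noncomputable def numIm (K : Type) [Field K] [NumberField K] (k : ℕ) : ℕ :=
  Nat.card {F : IntermediateField ℚ K // Module.finrank ℚ F = k ∧ IsCyclic (F ≃ₐ[ℚ] F) ∧
    ¬ F.toSubfield ≤ maximalRealSubfield K}

end Pool.Agent.CMT
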