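import Mathlib

set_option autoImplicit false

/-!
# Random signs: the largest atom, and linear relations over independent weights
-/

namespace Pool.Agent.CMT

open Finset
open scoped BigOperators

/-- the sign of a Boolean -/
def sg (b : Bool) : ℤ := if b then 1 else -1

/-- the number of sign vectors on a finite type with a given sum is at most the middle binomial
coefficient -/
theorem card_sum_eq_le {α : Type} [Fintype α] [DecidableEq α] (a : ℤ) :
    ((Finset.univ : Finset (α → Bool)).filter (fun e => ∑ x, sg (e x) = a)).card ≤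
      (Fintype.card α).choose (Fintype.card α / 2) := by
  have hsum : ∀ e : α → Bool, ∑ x, sg (e x) =
      2 * ((Finset.univ.filter (fun x => e x = true)).card : ℤ) - Fintype.card α := by
    intro e
    have h1 : ∀ x, sg (e x) = 2 * (if e x = true then 1 else 0) - 1 := by
      intro x
      unfold sg
      split_ifs <;> norm_num
    rw [Finset.sum_congr rfl fun x _ => h1 x, Finset.sum_sub_distrib, ← Finset.mul_sum,
      Finset.sum_boole]
    simp
  by_cases hne : ((Finset.univ : Finset (α → Bool)).filter (fun e => ∑ x, sg (e x) = a)).Nonempty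
  · obtain ⟨e0, he0⟩ := hne
    rw [Finset.mem_filter] at he0
    set k := (Finset.univ.filter (fun x => e0 x = true)).card with hk
    refine le_trans ?_ (Nat.choose_le_middle k _)
    rw [← Finset.card_univ (α := α), ← Finset.card_powersetCard]
    refine Finset.card_le_card_of_injOn (fun e => Finset.univ.filter (fun x => e x = true)) ?_ ?_
    · intro e he
      rw [Finset.mem_coe, Finset.mem_filter] at he
      rw [Finset.mem_coe, Finset.mem_powersetCard]
      refine ⟨Finset.filter_subset _ _, ?_⟩
      have h1 := hsum e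
      have h2 := hsum e0
      rw [he.2] at h1
      rw [he0.2] at h2
      have : ((Finset.univ.filter (fun x => e x = true)).card : ℤ) = k := by
        rw [hk]
        linarith
      exact_mod_cast this
    · intro e _ e' _ h
      funext x
      have h1 : x ∈ Finset.univ.filter (fun x => e x = true) ↔
          x ∈ Finset.univ.filter (fun x => e' x = true) := by
        simp only at h
        rw [h]
      simp only [Finset.mem_filter, Finset.mem_univ, true_and] at h1
      cases h2 : e x <;> cases h3 : e' x <;> simp_all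
  · rw [Finset.not_nonempty_iff_eq_empty] at hne
    rw [hne]
    simp

/-- `C(2k,k)^2 (3k+1) ≤ 16^k` -/
theorem central_sq (k : ℕ) : (Nat.centralBinom k) ^ 2 * (3 * k + 1) ≤ 16 ^ k := by
  induction k with
  | zero => simp
  | succ k ih =>
    have h := Nat.succ_mul_centralBinom_succ k
    -- (k+1) * cb(k+1) = 2 (2k+1) cb k
    have h1 : (k + 1) ^ 2 * ((Nat.centralBinom (k + 1)) ^ 2 * (3 * (k + 1) + 1)) =
        4 * (2 * k + 1) ^ 2 * (3 * k + 4) * (Nat.centralBinom k) ^ 2 := by
      have : (k + 1) ^ 2 * ((Nat.centralBinom (k + 1)) ^ 2 * (3 * (k + 1) + 1)) =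
        ((k + 1) * Nat.centralBinom (k + 1)) ^ 2 * (3 * k + 4) := by ring
      rw [this, h]
      ring
    have h2 : (2 * k + 1) ^ 2 * (3 * k + 4) ≤ 4 * (k + 1) ^ 2 * (3 * k + 1) := by
      nlinarith [sq_nonneg k]
    have h3 : (k + 1) ^ 2 * ((Nat.centralBinom (k + 1)) ^ 2 * (3 * (k + 1) + 1)) ≤
        (k + 1) ^ 2 * 16 ^ (k + 1) := by
      rw [h1]
      calc 4 * (2 * k + 1) ^ 2 * (3 * k + 4) * (Nat.centralBinom k) ^ 2
          = 4 * ((2 * k + 1) ^ 2 * (3 * k + 4)) * (Nat.centralBinom k) ^ 2 := by ring
        _ ≤ 4 * (4 * (k + 1) ^ 2 * (3 * k + 1)) * (Nat.centralBinom k) ^ 2 := by gcongr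
        _ = 16 * (k + 1) ^ 2 * ((Nat.centralBinom k) ^ 2 * (3 * k + 1)) := by ring
        _ ≤ 16 * (k + 1) ^ 2 * 16 ^ k := by gcongr
        _ = (k + 1) ^ 2 * 16 ^ (k + 1) := by ring
    exact Nat.le_of_mul_le_mul_left h3 (by positivity)

/-- the middle binomial coefficient: `C(N, N/2)^2 N ≤ 4^N` -/
theorem middle_sq (N : ℕ) : (N.choose (N / 2)) ^ 2 * N ≤ 4 ^ N := by
  rcases Nat.even_or_odd' N with ⟨k, rfl | rfl⟩
  · have h := central_sq k
    rw [Nat.centralBinom_eq_two_mul_choose] at h
    have h1 : 2 * k / 2 = k := by omega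
    rw [h1]
    calc (2 * k).choose k ^ 2 * (2 * k) ≤ (2 * k).choose k ^ 2 * (3 * k + 1) := by
          gcongr
          omega
      _ ≤ 16 ^ k := h
      _ = 4 ^ (2 * k) := by rw [pow_mul]; norm_num
  · have h := central_sq (k + 1)
    have h1 : (2 * k + 1) / 2 = k := by omega
    rw [h1]
    have h2 : Nat.centralBinom (k + 1) = 2 * (2 * k + 1).choose k := by
      rw [Nat.centralBinom_eq_two_mul_choose]
      have : 2 * (k + 1) = (2 * k + 1) + 1 := by ring
      rw [this, Nat.choose_succ_succ, Nat.choose_symm_half]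
      ring
    rw [h2] at h
    have h3 : 4 * ((2 * k + 1).choose k ^ 2 * (2 * k + 1)) ≤ 4 * 4 ^ (2 * k + 1) := by
      calc 4 * ((2 * k + 1).choose k ^ 2 * (2 * k + 1))
          = (2 * (2 * k + 1).choose k) ^ 2 * (2 * k + 1) := by ring
        _ ≤ (2 * (2 * k + 1).choose k) ^ 2 * (3 * (k + 1) + 1) :=
            Nat.mul_le_mul_left _ (by omega)
        _ ≤ 16 ^ (k + 1) := h
        _ = 4 * 4 ^ (2 * k + 1) := by
            rw [show (16 : ℕ) = 4 ^ 2 by norm_num, ← pow_mul]
            ring
    omega

/-- the middle binomial coefficient is at most half of the total -/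
theorem middle_half (N : ℕ) (hN : 1 ≤ N) : 2 * N.choose (N / 2) ≤ 2 ^ N := by
  rcases Nat.even_or_odd' N with ⟨k, rfl | rfl⟩
  · have h1 : 2 * k / 2 = k := by omega
    rw [h1]
    obtain ⟨j, rfl⟩ : ∃ j, k = j + 1 := ⟨k - 1, by omega⟩
    have h2 : 2 * (j + 1) = (2 * j + 1) + 1 := by ring
    have h3 : (2 * (j + 1)).choose (j + 1) = 2 * (2 * j + 1).choose j := by
      rw [h2, Nat.choose_succ_succ, Nat.choose_symm_half]
      ring
    have h4 : (2 * j + 1).choose j ≤ 4 ^ j := by
      have := Nat.sum_range_choose_halfway j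
      calc (2 * j + 1).choose j ≤ ∑ m ∈ Finset.range (j + 1), (2 * j + 1).choose m :=
            Finset.single_le_sum (f := fun m => (2 * j + 1).choose m) (fun _ _ => Nat.zero_le _)
              (Finset.mem_range.2 (Nat.lt_succ_self j))
        _ = 4 ^ j := this
    rw [h3]
    calc 2 * (2 * (2 * j + 1).choose j) ≤ 2 * (2 * 4 ^ j) := by gcongr
      _ = 2 ^ (2 * (j + 1)) := by
          rw [show (4 : ℕ) = 2 ^ 2 by norm_num, ← pow_mul]
          ring
  · have h1 : (2 * k + 1) / 2 = k := by omega
    rw [h1]
    have h4 : (2 * k + 1).choose k ≤ 4 ^ k := by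
      have := Nat.sum_range_choose_halfway k
      calc (2 * k + 1).choose k ≤ ∑ m ∈ Finset.range (k + 1), (2 * k + 1).choose m :=
            Finset.single_le_sum (f := fun m => (2 * k + 1).choose m) (fun _ _ => Nat.zero_le _)
              (Finset.mem_range.2 (Nat.lt_succ_self k))
        _ = 4 ^ k := this
    calc 2 * (2 * k + 1).choose k ≤ 2 * 4 ^ k := by gcongr
      _ = 2 ^ (2 * k + 1) := by
          rw [show (4 : ℕ) = 2 ^ 2 by norm_num, ← pow_mul]
          ring

/-- sign vectors with vanishing weighted sum: if the weights `w j`, `j ∈ J`, are linearly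
independent over the integers and occur `N` times each then few sign vectors have sum zero -/
theorem fib_count {α ι : Type} [Fintype α] [DecidableEq α] [DecidableEq ι] (f : α → ι)
    (w : ι → ℂ) (J : Finset ι) (N : ℕ)
    (hN : ∀ j ∈ J, (Finset.univ.filter (fun x => f x = j)).card = N)
    (hind : ∀ a : ι → ℤ, ∑ j ∈ J, (a j : ℂ) * w j = 0 → ∀ j ∈ J, a j = 0) :
    ((Finset.univ : Finset (α → Bool)).filter
      (fun e => ∑ x, (sg (e x) : ℂ) * w (f x) = 0)).card ≤
      (N.choose (N / 2)) ^ J.card * 2 ^ (Fintype.card α - N * J.card) := by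
  classical
  set S := (Finset.univ : Finset (α → Bool)).filter
      (fun e => ∑ x, (sg (e x) : ℂ) * w (f x) = 0) with hS
  have hB : Fintype.card ({x : α // f x ∉ J} → Bool) = 2 ^ (Fintype.card α - N * J.card) := by
    rw [Fintype.card_fun, Fintype.card_bool]
    congr 1
    rw [Fintype.card_subtype_compl (fun x => f x ∈ J)]
    congr 1
    rw [Fintype.card_subtype]
    have h1 : (Finset.univ.filter (fun x => f x ∈ J)).card =
        ∑ j ∈ J, (Finset.univ.filter (fun x => f x = j)).card := by
      rw [Finset.card_eq_sum_card_fiberwise (s := Finset.univ.filter (fun x => f x ∈ J))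
        (f := f) (t := J) (by intro x hx; simpa using hx)]
      refine Finset.sum_congr rfl fun j hj => ?_
      congr 1
      ext x
      simp only [Finset.mem_filter, Finset.mem_univ, true_and]
      constructor
      · rintro ⟨-, h⟩
        exact h
      · intro h
        exact ⟨h ▸ hj, h⟩
    rw [h1, Finset.sum_congr rfl hN, Finset.sum_const, smul_eq_mul, mul_comm]
  rw [← hB, ← Finset.card_univ]
  refine Finset.card_le_mul_card_image_of_maps_to
    (f := fun e (x : {x : α // f x ∉ J}) => e x) (fun _ _ => Finset.mem_univ _) _ ?_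
  intro b _
  by_cases hne : (S.filter (fun e => (fun (x : {x : α // f x ∉ J}) => e x) = b)).Nonempty
  swap
  · rw [Finset.not_nonempty_iff_eq_empty] at hne
    rw [hne]
    simp
  obtain ⟨e0, he0⟩ := hne
  rw [Finset.mem_filter, hS, Finset.mem_filter] at he0
  obtain ⟨⟨-, h0⟩, hb0⟩ := he0
  -- the sums over the fibres are determined
  have key : ∀ e ∈ S.filter (fun e => (fun (x : {x : α // f x ∉ J}) => e x) = b), ∀ j ∈ J,
      ∑ x ∈ Finset.univ.filter (fun x => f x = j), sg (e x) =
        ∑ x ∈ Finset.univ.filter (fun x => f x = j), sg (e0 x) := by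
    intro e he
    rw [Finset.mem_filter, hS, Finset.mem_filter] at he
    obtain ⟨⟨-, h1⟩, hb1⟩ := he
    have h2 : ∑ j ∈ J, (((∑ x ∈ Finset.univ.filter (fun x => f x = j), sg (e x)) -
        ∑ x ∈ Finset.univ.filter (fun x => f x = j), sg (e0 x) : ℤ) : ℂ) * w j = 0 := by
      have h3 : ∑ x, ((sg (e x) : ℂ) - (sg (e0 x) : ℂ)) * w (f x) = 0 := by
        have : ∀ x, ((sg (e x) : ℂ) - (sg (e0 x) : ℂ)) * w (f x) =
          (sg (e x) : ℂ) * w (f x) - (sg (e0 x) : ℂ) * w (f x) := fun x => by ring
        rw [Finset.sum_congr rfl fun x _ => this x, Finset.sum_sub_distrib, h1, h0, sub_zero]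
      have h4 : ∑ x, ((sg (e x) : ℂ) - (sg (e0 x) : ℂ)) * w (f x) =
          ∑ x ∈ Finset.univ.filter (fun x => f x ∈ J),
            ((sg (e x) : ℂ) - (sg (e0 x) : ℂ)) * w (f x) := by
        symm
        refine Finset.sum_subset (Finset.filter_subset _ _) fun x _ hx => ?_
        have hx' : f x ∉ J := fun h => hx (Finset.mem_filter.2 ⟨Finset.mem_univ _, h⟩)
        have h5 : e x = e0 x := by
          have := congrFun (hb1.trans hb0.symm) ⟨x, hx'⟩
          exact this
        rw [h5]
        ring
      rw [h4] at h3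
      rw [← h3, ← Finset.sum_fiberwise_of_maps_to (s := Finset.univ.filter (fun x => f x ∈ J))
        (t := J) (g := f) (fun x hx => (Finset.mem_filter.1 hx).2)]
      refine Finset.sum_congr rfl fun j hj => ?_
      have h6 : (Finset.univ.filter (fun x => f x ∈ J)).filter (fun x => f x = j) =
          Finset.univ.filter (fun x => f x = j) := by
        ext x
        simp only [Finset.mem_filter, Finset.mem_univ, true_and]
        constructor
        · rintro ⟨-, h⟩
          exact h
        · intro h
          exact ⟨h ▸ hj, h⟩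
      rw [h6]
      push_cast
      rw [← Finset.sum_sub_distrib, Finset.sum_mul]
      refine Finset.sum_congr rfl fun x hx => ?_
      rw [(Finset.mem_filter.1 hx).2]
    intro j hj
    have := hind _ h2 j hj
    linarith
  -- injection into the product
  have hcard : ∀ j : J, ((Finset.univ : Finset ({x : α // f x = j} → Bool)).filter
      (fun u => ∑ x, sg (u x) = ∑ x ∈ Finset.univ.filter (fun x => f x = j), sg (e0 x))).card ≤
      N.choose (N / 2) := by
    intro j
    refine le_trans (card_sum_eq_le _) ?_
    have : Fintype.card {x : α // f x = j} = N := by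
      rw [Fintype.card_subtype]
      exact hN j j.2
    rw [this]
  calc (S.filter (fun e => (fun (x : {x : α // f x ∉ J}) => e x) = b)).card
      ≤ (Fintype.piFinset (fun j : J => (Finset.univ : Finset ({x : α // f x = j} → Bool)).filter
      (fun u => ∑ x, sg (u x) =
        ∑ x ∈ Finset.univ.filter (fun x => f x = j), sg (e0 x)))).card := by
        refine Finset.card_le_card_of_injOn (fun e (j : J) (x : {x : α // f x = j}) => e x) ?_ ?_
        · intro e he
          rw [Finset.mem_coe, Fintype.mem_piFinset]
          intro j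
          rw [Finset.mem_filter]
          refine ⟨Finset.mem_univ _, ?_⟩
          rw [← key e he j j.2]
          exact (Finset.sum_subtype (Finset.univ.filter (fun x => f x = (j : ι)))
            (fun x => by simp) (fun x => sg (e x))).symm
        · intro e he e' he' h
          rw [Finset.mem_coe, Finset.mem_filter] at he he'
          funext x
          by_cases hx : f x ∈ J
          · exact congrFun (congrFun h ⟨f x, hx⟩) ⟨x, rfl⟩
          · exact congrFun (he.2.trans he'.2.symm) ⟨x, hx⟩
    _ = ∏ j : J, ((Finset.univ : Finset ({x : α // f x = j} → Bool)).filter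
      (fun u => ∑ x, sg (u x) =
        ∑ x ∈ Finset.univ.filter (fun x => f x = j), sg (e0 x))).card := Fintype.card_piFinset _
    _ ≤ ∏ _j : J, N.choose (N / 2) := Finset.prod_le_prod' fun j _ => hcard j
    _ = (N.choose (N / 2)) ^ J.card := by simp

end Pool.Agent.CMT
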