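import Mathlib

set_option autoImplicit false

/-!
# Elementary bounds for Euler's function
-/

namespace Pool.Agent.CMT

/-- `n ≤ 2 φ(n)^2`, and `n ≤ φ(n)^2` for odd `n` -/
theorem totient_sq_aux (n : ℕ) :
    (n ≤ 2 * n.totient ^ 2) ∧ (¬ 2 ∣ n → n ≤ n.totient ^ 2) := by
  induction n using Nat.recOnPosPrimePosCoprime with
  | zero => simp
  | one => simp
  | prime_pow p k hp hk =>
    rw [Nat.totient_prime_pow hp hk]
    have hp2 := hp.two_le
    obtain ⟨j, rfl⟩ : ∃ j, k = j + 1 := ⟨k - 1, by omega⟩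
    simp only [Nat.add_sub_cancel]
    have h1 : ∀ q : ℕ, p ≤ q * (p - 1) ^ 2 → p ^ (j + 1) ≤ q * (p ^ j * (p - 1)) ^ 2 := by
      intro q hq
      calc p ^ (j + 1) = p ^ j * p := pow_succ _ _
        _ ≤ (p ^ j * p ^ j) * (q * (p - 1) ^ 2) := by
            refine Nat.mul_le_mul ?_ hq
            exact Nat.le_mul_of_pos_right _ (pow_pos hp.pos _)
        _ = q * (p ^ j * (p - 1)) ^ 2 := by ring
    obtain ⟨r, rfl⟩ : ∃ r, p = r + 1 := ⟨p - 1, by omega⟩
    simp only [Nat.add_sub_cancel] at h1 ⊢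
    refine ⟨h1 2 (by nlinarith), fun hodd => ?_⟩
    have h2 := h1 1 ?_
    · simpa using h2
    · have : r ≠ 1 := by
        rintro rfl
        exact hodd (dvd_pow_self 2 (by omega))
      have : 2 ≤ r := by omega
      nlinarith
  | coprime a b ha hb hab iha ihb =>
    rw [Nat.totient_mul hab]
    constructor
    · rcases Classical.em (2 ∣ a) with h | h
      · have hb2 : ¬ 2 ∣ b := by
          intro hb2
          have := Nat.dvd_gcd h hb2
          rw [hab] at this
          omega
        calc a * b ≤ (2 * a.totient ^ 2) * (b.totient ^ 2) := Nat.mul_le_mul iha.1 (ihb.2 hb2)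
          _ = 2 * (a.totient * b.totient) ^ 2 := by ring
      · calc a * b ≤ (a.totient ^ 2) * (2 * b.totient ^ 2) := Nat.mul_le_mul (iha.2 h) ihb.1
          _ = 2 * (a.totient * b.totient) ^ 2 := by ring
    · intro h
      have h1 : ¬ 2 ∣ a := fun h' => h (Dvd.dvd.mul_right h' _)
      have h2 : ¬ 2 ∣ b := fun h' => h (Dvd.dvd.mul_left h' _)
      calc a * b ≤ (a.totient ^ 2) * (b.totient ^ 2) := Nat.mul_le_mul (iha.2 h1) (ihb.2 h2)
        _ = (a.totient * b.totient) ^ 2 := by ring

theorem le_totient_sq (m : ℕ) : m ≤ (2 * m).totient ^ 2 := by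
  have := (totient_sq_aux (2 * m)).1
  omega

/-- half of the residues are even -/
theorem totient_even_le (m : ℕ) : (2 * m).totient ≤ m := by
  induction m using Nat.strong_induction_on with
  | _ m ih =>
    rcases Nat.even_or_odd m with h | h
    · have h2 : 2 ∣ m := h.two_dvd
      rw [Nat.totient_mul_of_prime_of_dvd Nat.prime_two h2]
      obtain ⟨k, rfl⟩ := h2
      rcases Nat.eq_zero_or_pos k with rfl | hk
      · simp
      · have h3 := ih k (by omega)
        omega
    · rw [Nat.totient_mul (Nat.coprime_two_left.2 h)]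
      simpa using Nat.totient_le m

/-- `16 x^4 ≤ 324 2^x` for `x ≥ 4` -/
theorem quartic_le (x : ℕ) (hx : 4 ≤ x) : 16 * x ^ 4 ≤ 324 * 2 ^ x := by
  rcases Nat.lt_or_ge x 6 with h | h
  · interval_cases x <;> norm_num
  · induction x, h using Nat.le_induction with
    | base => norm_num
    | succ n hn ih =>
      have h1 : (n + 1) ^ 4 ≤ 2 * n ^ 4 := by
        obtain ⟨k, rfl⟩ : ∃ k, n = k + 6 := ⟨n - 6, by omega⟩
        ring_nf
        nlinarith [Nat.zero_le k, Nat.zero_le (k ^ 2), Nat.zero_le (k ^ 3), Nat.zero_le (k ^ 4)]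
      have h2 := ih (by omega)
      calc 16 * (n + 1) ^ 4 ≤ 16 * (2 * n ^ 4) := by gcongr
        _ = 2 * (16 * n ^ 4) := by ring
        _ ≤ 2 * (324 * 2 ^ n) := by gcongr
        _ = 324 * 2 ^ (n + 1) := by ring

/-- even numbers with at most three residues are `2`, `4`, `6` -/
theorem four_le_totient (m : ℕ) (h1 : 4 ≤ m) : 4 ≤ (2 * m).totient := by
  rcases Nat.lt_or_ge m 10 with h | h
  · interval_cases m <;> decide
  · have := le_totient_sq m
    by_contra h2
    have h2 := Nat.lt_of_not_le h2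
    have h3 : (2 * m).totient ≤ 3 := by omega
    have h4 : (2 * m).totient ^ 2 ≤ 3 ^ 2 := Nat.pow_le_pow_left h3 2
    omega

end Pool.Agent.CMT
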