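import Mathlib
import Pool.Agent.CMT.Sperner
import Pool.Agent.CMT.Tot

set_option autoImplicit false

/-!
# CM types of a finite abelian group with an involution, and one odd character
-/

namespace Pool.Agent.CMT

open Finset
open scoped BigOperators

variable {G : Type} [CommGroup G] [Fintype G]

/-- half systems -/
def Half (c : G) (P : Finset G) : Prop := ∀ x, x ∈ P ↔ c * x ∉ P

/-- data of an odd character: a primitive root and the index -/
theorem char_data (c : G) (χ : G →* ℂˣ) (hχ : χ c = -1) :
    ∃ (m N : ℕ) (z : ℂ) (idx : G → ℕ), 1 ≤ m ∧ Nat.card χ.range = 2 * m ∧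
      IsPrimitiveRoot z (2 * m) ∧ (∀ x, idx x < 2 * m) ∧ (∀ x, (χ x : ℂ) = z ^ idx x) ∧
      (∀ j, j < 2 * m → (Finset.univ.filter (fun x => idx x = j)).card = N) ∧
      2 * m * N = Fintype.card G ∧ (∀ x, idx x < m ↔ ¬ idx (c * x) < m) := by
  classical
  obtain ⟨y, hy⟩ := IsCyclic.exists_generator (α := χ.range)
  set n := Nat.card χ.range with hn
  have hny : orderOf y = n := orderOf_eq_card_of_forall_mem_zpowers hy
  have hnpos : 0 < n := Nat.card_pos
  set z : ℂ := ((y : ℂˣ) : ℂ) with hz
  have hprim : IsPrimitiveRoot z n := by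
    have h1 : IsPrimitiveRoot y n := hny ▸ IsPrimitiveRoot.orderOf y
    have h2 : IsPrimitiveRoot (y : ℂˣ) n := (IsPrimitiveRoot.coe_submonoidClass_iff).2 h1
    exact (IsPrimitiveRoot.coe_units_iff).2 h2
  have hidx : ∀ x : G, ∃ j, j < n ∧ (χ x : ℂ) = z ^ j := by
    intro x
    have h1 := hy ⟨χ x, x, rfl⟩
    rw [← mem_powers_iff_mem_zpowers, mem_powers_iff_mem_range_orderOf, hny] at h1
    rw [Finset.mem_image] at h1
    obtain ⟨j, hj, hj2⟩ := h1
    refine ⟨j, Finset.mem_range.1 hj, ?_⟩
    have h3 := congrArg (fun t : χ.range => ((t : ℂˣ) : ℂ)) hj2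
    simpa using h3.symm
  choose idx hlt hval using hidx
  have huniq : ∀ x j, j < n → (χ x : ℂ) = z ^ j → idx x = j := by
    intro x j hj h
    exact hprim.pow_inj (hlt x) hj ((hval x).symm.trans h)
  -- evenness
  have heven : 2 ∣ n := by
    have h1 : orderOf (⟨χ c, c, rfl⟩ : χ.range) ∣ n := orderOf_dvd_natCard _
    have h2 : orderOf (⟨χ c, c, rfl⟩ : χ.range) = 2 := by
      refine orderOf_eq_prime ?_ ?_
      · ext
        simp [hχ]
      · intro h
        have h3 := congrArg (fun t : χ.range => ((t : ℂˣ) : ℂ)) h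
        simp only [hχ] at h3
        norm_num at h3
    rwa [h2] at h1
  obtain ⟨m, hm⟩ := heven
  have hmpos : 1 ≤ m := by omega
  have hzm : z ^ m = -1 := by
    have h1 : (z ^ m) ^ 2 = 1 := by
      rw [← pow_mul, mul_comm, ← hm, hprim.pow_eq_one]
    have h2 : z ^ m ≠ 1 := hprim.pow_ne_one_of_pos_of_lt (by omega) (by omega)
    rcases (mul_self_eq_one_iff.1 ((sq (z ^ m)) ▸ h1)) with h | h
    · exact absurd h h2
    · exact h
  have hfib : ∀ j, j < n → (Finset.univ.filter (fun x => idx x = j)).card =
      (Finset.univ.filter (fun x : G => χ x = 1)).card := by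
    intro j hj
    obtain ⟨x0, hx0⟩ := (y ^ j).2
    have hx0' : (χ x0 : ℂ) = z ^ j := by
      have h3 := congrArg (fun t : ℂˣ => (t : ℂ)) hx0
      simpa using h3
    symm
    refine Finset.card_bij (fun x _ => x0 * x) ?_ ?_ ?_
    · intro x hx
      rw [Finset.mem_filter] at hx ⊢
      refine ⟨Finset.mem_univ _, huniq _ _ hj ?_⟩
      rw [map_mul, hx.2, mul_one, hx0']
    · intro a _ b _ h
      exact mul_left_cancel h
    · intro b hb
      rw [Finset.mem_filter] at hb
      refine ⟨x0⁻¹ * b, ?_, by simp⟩
      rw [Finset.mem_filter]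
      refine ⟨Finset.mem_univ _, ?_⟩
      have h4 : χ b = χ x0 := by
        ext
        rw [hval b, hb.2, hx0']
      rw [map_mul, map_inv, h4, inv_mul_cancel]
  refine ⟨m, (Finset.univ.filter (fun x : G => χ x = 1)).card, z, idx, hmpos, hm, hm ▸ hprim,
    fun x => hm ▸ hlt x, hval, fun j hj => hfib j (hm ▸ hj), ?_, ?_⟩
  · have h1 : Fintype.card G = ∑ j ∈ Finset.range n,
        (Finset.univ.filter (fun x => idx x = j)).card := by
      rw [← Finset.card_univ]
      exact Finset.card_eq_sum_card_fiberwise (fun x _ => by simpa using hlt x)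
    rw [h1, Finset.sum_congr rfl fun j hj => hfib j (Finset.mem_range.1 hj), Finset.sum_const,
      Finset.card_range, smul_eq_mul, hm]
  · intro x
    have hcx : (χ (c * x) : ℂ) = z ^ (m + idx x) := by
      rw [map_mul, hχ, pow_add, hzm, Units.val_mul, hval x]
      simp
    have hx := hlt x
    constructor
    · intro h h'
      have h5 := huniq (c * x) (m + idx x) (by omega) hcx
      omega
    · intro h
      by_contra h6
      have h7 : (χ (c * x) : ℂ) = z ^ (idx x - m) := by
        rw [hcx, show m + idx x = n + (idx x - m) by omega, pow_add, hprim.pow_eq_one, one_mul]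
      have h5 := huniq (c * x) (idx x - m) (by omega) h7
      omega

omit [Fintype G] in
/-- a half system is determined by its trace on another half system -/
theorem half_ext {c : G} {T P Q : Finset G} (hT : Half c T) (hP : Half c P) (hQ : Half c Q)
    (h : ∀ x ∈ T, x ∈ P ↔ x ∈ Q) : P = Q := by
  ext x
  by_cases hx : x ∈ T
  · exact h x hx
  · have h1 : c * x ∈ T := by
      by_contra h2
      exact hx ((hT x).2 h2)
    rw [hP x, hQ x, h _ h1]

omit [Fintype G] in
/-- sum over a half system of an odd function -/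
theorem half_sum [DecidableEq G] {c : G} (hc : c * c = 1) {T P : Finset G} (hT : Half c T)
    (hP : Half c P) (χ : G →* ℂˣ) (hχ : χ c = -1) :
    ∑ x ∈ P, (χ x : ℂ) = ∑ x ∈ T, (sg (decide (x ∈ P)) : ℂ) * (χ x : ℂ) := by
  have h1 : ∑ x ∈ T, (sg (decide (x ∈ P)) : ℂ) * (χ x : ℂ) =
      ∑ x ∈ T ∩ P, (χ x : ℂ) + ∑ x ∈ T \ P, (-(χ x : ℂ)) := by
    rw [← Finset.sum_inter_add_sum_sdiff T P]
    congr 1
    · refine Finset.sum_congr rfl fun x hx => ?_
      simp [sg, (Finset.mem_inter.1 hx).2]
    · refine Finset.sum_congr rfl fun x hx => ?_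
      simp [sg, (Finset.mem_sdiff.1 hx).2]
  have h2 : ∑ x ∈ P, (χ x : ℂ) = ∑ x ∈ P ∩ T, (χ x : ℂ) + ∑ x ∈ P \ T, (χ x : ℂ) :=
    (Finset.sum_inter_add_sum_sdiff P T _).symm
  rw [h1, h2, Finset.inter_comm]
  congr 1
  refine Finset.sum_bij (fun x _ => c * x) ?_ ?_ ?_ ?_
  · intro x hx
    rw [Finset.mem_sdiff] at hx ⊢
    refine ⟨?_, (hP x).1 hx.1⟩
    by_contra h3
    exact hx.2 ((hT x).2 h3)
  · intro a _ b _ h
    exact mul_left_cancel h
  · intro b hb
    rw [Finset.mem_sdiff] at hb
    refine ⟨c * b, ?_, by rw [← mul_assoc, hc, one_mul]⟩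
    rw [Finset.mem_sdiff]
    constructor
    · by_contra h3
      exact hb.2 ((hP b).2 h3)
    · exact (hT b).1 hb.1
  · intro x _
    rw [map_mul, hχ]
    simp

/-- the number of elements of a half system -/
theorem half_card [DecidableEq G] {c : G} (hc : c * c = 1) {T : Finset G} (hT : Half c T) :
    2 * T.card = Fintype.card G := by
  have h1 : (Finset.univ \ T).card = T.card := by
    refine Finset.card_bij (fun x _ => c * x) ?_ ?_ ?_
    · intro x hx
      rw [Finset.mem_sdiff] at hx
      by_contra h3
      exact hx.2 ((hT x).2 h3)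
    · intro a _ b _ h
      exact mul_left_cancel h
    · intro b hb
      refine ⟨c * b, ?_, by rw [← mul_assoc, hc, one_mul]⟩
      rw [Finset.mem_sdiff]
      exact ⟨Finset.mem_univ _, (hT b).1 hb⟩
  have h2 := Finset.card_sdiff_add_card_eq_card (Finset.subset_univ T)
  rw [h1, Finset.card_univ] at h2
  omega

/-- the number of half systems -/
theorem half_count [DecidableEq G] {c : G} (hc : c * c = 1) {T : Finset G} (hT : Half c T) :
    Nat.card {P : Finset G // Half c P} = 2 ^ T.card := by
  classical
  have : Nat.card (T → Bool) = 2 ^ T.card := by simp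
  rw [← this]
  refine Nat.card_congr
    { toFun := fun P x => decide ((x : G) ∈ P.1)
      invFun := fun e => ⟨Finset.univ.filter (fun x => (∃ h : x ∈ T, e ⟨x, h⟩ = true) ∨
        (∃ h : c * x ∈ T, e ⟨c * x, h⟩ = false)), ?_⟩
      left_inv := ?_
      right_inv := ?_ }
  · intro x
    have hcc : c * (c * x) = x := by rw [← mul_assoc, hc, one_mul]
    simp only [Finset.mem_filter, Finset.mem_univ, true_and, hcc]
    by_cases hx : x ∈ T
    · have h1 : c * x ∉ T := (hT x).1 hx
      simp [hx, h1]
    · have h1 : c * x ∈ T := by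
        by_contra h2
        exact hx ((hT x).2 h2)
      simp [hx, h1]
  · intro P
    refine Subtype.ext (half_ext hT ?_ P.2 ?_)
    · intro x
      have hcc : c * (c * x) = x := by rw [← mul_assoc, hc, one_mul]
      simp only [Finset.mem_filter, Finset.mem_univ, true_and, hcc]
      by_cases hx : x ∈ T
      · have h1 : c * x ∉ T := (hT x).1 hx
        simp [hx, h1]
      · have h1 : c * x ∈ T := by
          by_contra h2
          exact hx ((hT x).2 h2)
        simp [hx, h1]
    · intro x hx
      have h1 : c * x ∉ T := (hT x).1 hx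
      simp [hx, h1]
  · intro e
    funext x
    have h1 : c * (x : G) ∉ T := (hT x).1 x.2
    simp [h1]

/-- few half systems are orthogonal to a given odd character -/
theorem char_count (c : G) (hc : c * c = 1) (χ : G →* ℂˣ) (hχ : χ c = -1) :
    ∃ (m N : ℕ), 1 ≤ m ∧ Nat.card χ.range = 2 * m ∧ 2 * m * N = Fintype.card G ∧
      N * (2 * m).totient ≤ m * N ∧
      Nat.card {P : Finset G // Half c P ∧ ∑ x ∈ P, (χ x : ℂ) = 0} ≤
        (N.choose (N / 2)) ^ (2 * m).totient * 2 ^ (m * N - N * (2 * m).totient) := by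
  classical
  obtain ⟨m, N, z, idx, hm, hcard, hprim, hlt, hval, hfib, hN, hhalf⟩ := char_data c χ hχ
  have htot : (2 * m).totient ≤ m := totient_even_le m
  refine ⟨m, N, hm, hcard, hN, ?_, ?_⟩
  · rw [mul_comm m N]
    exact Nat.mul_le_mul_left _ htot
  set T : Finset G := Finset.univ.filter (fun x => idx x < m) with hT
  have hTh : Half c T := by
    intro x
    rw [hT, Finset.mem_filter, Finset.mem_filter]
    simpa using hhalf x
  have hTc : T.card = m * N := by
    have := half_card hc hTh
    have h2 : 2 * T.card = 2 * (m * N) := by rw [this, ← hN]; ring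
    omega
  have hcount := fib_count (α := T) (fun x => idx x) (fun j : ℕ => z ^ j)
    (Finset.range (2 * m).totient) N ?_ ?_
  · rw [Finset.card_range, Fintype.card_coe, hTc] at hcount
    refine le_trans ?_ hcount
    rw [← Fintype.card_subtype, ← Nat.card_eq_fintype_card]
    refine Nat.card_le_card_of_injective
      (fun P => ⟨fun x => decide ((x : G) ∈ P.1), ?_⟩) ?_
    · have h1 := half_sum hc hTh P.2.1 χ hχ
      rw [P.2.2] at h1
      refine Eq.trans ?_ h1.symm
      rw [← Finset.sum_coe_sort T (fun x => (sg (decide (x ∈ P.1)) : ℂ) * (χ x : ℂ))]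
      refine Finset.sum_congr rfl fun x _ => ?_
      simp only [hval]
    · intro P Q h
      refine Subtype.ext (half_ext hTh P.2.1 Q.2.1 fun x hx => ?_)
      have h1 := congrFun (congrArg Subtype.val h) ⟨x, hx⟩
      simpa using h1
  · intro j hj
    have hj' := Finset.mem_range.1 hj
    rw [← hfib j (by omega)]
    refine Finset.card_bij (fun x _ => (x : G)) ?_ ?_ ?_
    · intro x hx
      rw [Finset.mem_filter] at hx ⊢
      exact ⟨Finset.mem_univ _, hx.2⟩
    · intro a _ b _ h
      exact Subtype.ext h
    · intro x hx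
      rw [Finset.mem_filter] at hx
      refine ⟨⟨x, ?_⟩, ?_, rfl⟩
      · rw [hT, Finset.mem_filter]
        exact ⟨Finset.mem_univ _, by omega⟩
      · rw [Finset.mem_filter]
        exact ⟨Finset.mem_univ _, hx.2⟩
  · intro a ha
    -- linear independence of the powers
    set p : Polynomial ℚ := ∑ j ∈ Finset.range (2 * m).totient,
      Polynomial.monomial j (a j : ℚ) with hp
    have hroot : Polynomial.aeval z p = 0 := by
      rw [hp, map_sum, ← ha]
      refine Finset.sum_congr rfl fun j _ => ?_
      rw [Polynomial.aeval_monomial]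
      simp
    have hp0 : p = 0 := by
      by_contra hne
      have h1 := minpoly.degree_le_of_ne_zero ℚ z hne hroot
      rw [← Polynomial.cyclotomic_eq_minpoly_rat hprim (by omega),
        Polynomial.degree_cyclotomic] at h1
      have h2 : p.degree < ((2 * m).totient : ℕ) := by
        rw [hp, Polynomial.degree_lt_iff_coeff_zero]
        intro k hk
        rw [Polynomial.finsetSum_coeff]
        refine Finset.sum_eq_zero fun j hj => ?_
        have hj' := Finset.mem_range.1 hj
        rw [Polynomial.coeff_monomial, if_neg (by omega)]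
      exact absurd (lt_of_le_of_lt h1 h2) (lt_irrefl _)
    intro j hj
    have h3 := congrArg (fun q => Polynomial.coeff q j) hp0
    simp only [hp, Polynomial.finsetSum_coeff, Polynomial.coeff_monomial,
      Polynomial.coeff_zero] at h3
    rw [Finset.sum_ite_eq' (Finset.range (2 * m).totient) j (fun j => (a j : ℚ)), if_pos hj] at h3
    exact_mod_cast h3

end Pool.Agent.CMT
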