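import Mathlib
import Pool.Agent.CMT.Char

set_option autoImplicit false

/-!
# Union bound over the odd characters
-/

namespace Pool.Agent.CMT

open Finset
open scoped BigOperators

variable {G : Type} [CommGroup G] [Fintype G]

/-- the bound for one character, in real terms -/
theorem real_bound (m N f : ℕ) (hf : N * f ≤ m * N) :
    (((N.choose (N / 2)) ^ f * 2 ^ (m * N - N * f) : ℕ) : ℝ) ≤
      2 ^ (m * N) * (((N.choose (N / 2) : ℕ) : ℝ) / 2 ^ N) ^ f := by
  push_cast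
  rw [div_pow, ← pow_mul, ← mul_div_assoc, le_div_iff₀ (by positivity), mul_assoc, ← pow_add,
    Nat.sub_add_cancel hf, mul_comm]

theorem atom_sqrt (N : ℕ) (hN : 1 ≤ N) :
    ((N.choose (N / 2) : ℕ) : ℝ) / 2 ^ N ≤ 1 / Real.sqrt N := by
  have hN' : (0 : ℝ) < N := by exact_mod_cast hN
  have h1 : (((N.choose (N / 2) : ℕ) : ℝ) / 2 ^ N) ^ 2 * N ≤ 1 := by
    have := middle_sq N
    have h2 : (((N.choose (N / 2)) ^ 2 * N : ℕ) : ℝ) ≤ ((4 ^ N : ℕ) : ℝ) := by exact_mod_cast this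
    push_cast at h2
    rw [div_pow, ← pow_mul, mul_comm N 2, pow_mul, div_mul_eq_mul_div, div_le_one (by positivity)]
    calc _ ≤ (4 : ℝ) ^ N := h2
      _ = (2 ^ 2) ^ N := by norm_num
  rw [le_div_iff₀ (Real.sqrt_pos.2 hN')]
  have h3 : (((N.choose (N / 2) : ℕ) : ℝ) / 2 ^ N * Real.sqrt N) ^ 2 ≤ 1 ^ 2 := by
    rw [mul_pow, Real.sq_sqrt hN'.le]
    simpa using h1
  exact le_of_sq_le_sq h3 (by norm_num)

theorem atom_half (N : ℕ) (hN : 1 ≤ N) :
    ((N.choose (N / 2) : ℕ) : ℝ) / 2 ^ N ≤ 1 / 2 := by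
  have := middle_half N hN
  have h2 : ((2 * N.choose (N / 2) : ℕ) : ℝ) ≤ ((2 ^ N : ℕ) : ℝ) := by exact_mod_cast this
  push_cast at h2
  rw [div_le_iff₀ (by positivity)]
  linarith

/-- weight of a character -/
noncomputable def wt (g k : ℕ) : ℝ :=
  if k = 2 then 1 / Real.sqrt g else if k = 4 then 2 / g else if k = 6 then 3 / g else
    324 / (g : ℝ) ^ 2

theorem char_real (c : G) (hc : c * c = 1) (g : ℕ) (hg : Fintype.card G = 2 * g) (χ : G →* ℂˣ)
    (hχ : χ c = -1) :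
    (Nat.card {P : Finset G // Half c P ∧ ∑ x ∈ P, (χ x : ℂ) = 0} : ℝ) ≤
      2 ^ g * wt g (Nat.card χ.range) := by
  obtain ⟨m, N, hm, hcard, hN, hle, hb⟩ := char_count c hc χ hχ
  have hgm : g = m * N := by
    have : 2 * (m * N) = 2 * g := by rw [← hg, ← hN]; ring
    omega
  have hpos : 0 < Fintype.card G := Fintype.card_pos
  have hN1 : 1 ≤ N := by
    rcases Nat.eq_zero_or_pos N with h | h
    · rw [h, mul_zero] at hN
      omega
    · exact h
  have hN' : (0 : ℝ) < N := by exact_mod_cast hN1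
  have h1 : (Nat.card {P : Finset G // Half c P ∧ ∑ x ∈ P, (χ x : ℂ) = 0} : ℝ) ≤
      2 ^ g * (((N.choose (N / 2) : ℕ) : ℝ) / 2 ^ N) ^ (2 * m).totient := by
    rw [hgm]
    exact le_trans (by exact_mod_cast hb) (real_bound m N _ hle)
  refine le_trans h1 ?_
  refine mul_le_mul_of_nonneg_left ?_ (by positivity)
  set q : ℝ := ((N.choose (N / 2) : ℕ) : ℝ) / 2 ^ N with hq
  have hq0 : 0 ≤ q := by positivity
  have hq1 : q ≤ 1 / Real.sqrt N := atom_sqrt N hN1
  have hq2 : q ≤ 1 / 2 := atom_half N hN1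
  have hqsq : q ^ 2 ≤ 1 / N := by
    calc q ^ 2 ≤ (1 / Real.sqrt (N : ℝ)) ^ 2 := by gcongr
      _ = 1 / (N : ℝ) := by rw [div_pow, Real.sq_sqrt hN'.le, one_pow]
  rw [hcard, wt]
  rcases Nat.lt_or_ge m 4 with h4 | h4
  · interval_cases m
    · simp only [mul_one, if_true]
      rw [hgm]
      simpa using hq1
    · norm_num
      have ht : Nat.totient 4 = 2 := by decide
      rw [ht, hgm]
      push_cast
      refine le_trans hqsq ?_
      rw [mul_comm (2 : ℝ), ← div_div, div_div, div_le_div_iff₀ hN' (by positivity)]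
      nlinarith
    · norm_num
      have ht : Nat.totient 6 = 2 := by decide
      rw [ht, hgm]
      push_cast
      refine le_trans hqsq ?_
      rw [div_le_div_iff₀ hN' (by positivity)]
      nlinarith
  · rw [if_neg (by omega), if_neg (by omega), if_neg (by omega)]
    have hf4 := four_le_totient m h4
    obtain ⟨k, hk⟩ : ∃ k, (2 * m).totient = k + 4 := ⟨_, (Nat.sub_add_cancel hf4).symm⟩
    have h5 : q ^ (2 * m).totient ≤ (1 / N) ^ 2 * (1 / 2) ^ k := by
      rw [hk, pow_add, mul_comm]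
      refine mul_le_mul ?_ ?_ (by positivity) (by positivity)
      · calc q ^ 4 = (q ^ 2) ^ 2 := by ring
          _ ≤ (1 / (N : ℝ)) ^ 2 := by gcongr
      · gcongr
    refine le_trans h5 ?_
    have h6 : m ≤ (k + 4) ^ 2 := hk ▸ le_totient_sq m
    have h7 := quartic_le (k + 4) (by omega)
    have h8 : (m : ℝ) ^ 2 * 16 ≤ 324 * 2 ^ (k + 4) := by
      have h9 : (m : ℝ) ≤ ((k : ℝ) + 4) ^ 2 := by exact_mod_cast h6
      have h10 : (16 : ℝ) * ((k : ℝ) + 4) ^ 4 ≤ 324 * 2 ^ (k + 4) := by exact_mod_cast h7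
      calc (m : ℝ) ^ 2 * 16 ≤ (((k : ℝ) + 4) ^ 2) ^ 2 * 16 := by gcongr
        _ = 16 * ((k : ℝ) + 4) ^ 4 := by ring
        _ ≤ _ := h10
    have hm' : (0 : ℝ) < m := by exact_mod_cast (by omega : 0 < m)
    rw [hgm]
    push_cast
    rw [div_pow, div_pow, one_pow, one_pow, one_div_mul_one_div,
      div_le_div_iff₀ (by positivity) (by positivity)]
    have h11 : (2 : ℝ) ^ (k + 4) = 16 * 2 ^ k := by rw [pow_add]; ring
    rw [h11] at h8
    have h12 : (m : ℝ) ^ 2 ≤ 324 * 2 ^ k := by linarith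
    calc 1 * ((m : ℝ) * N) ^ 2 = (m : ℝ) ^ 2 * (N : ℝ) ^ 2 := by ring
      _ ≤ 324 * 2 ^ k * (N : ℝ) ^ 2 := by gcongr
      _ = 324 * ((N : ℝ) ^ 2 * 2 ^ k) := by ring

/-- number of odd characters of order `k` -/
noncomputable def oddc (c : G) (k : ℕ) : ℕ :=
  Nat.card {χ : G →* ℂˣ // χ c = -1 ∧ Nat.card χ.range = k}

/-- the main counting theorem for finite abelian groups -/
theorem core (c : G) (hc : c * c = 1) (g : ℕ) (hg : Fintype.card G = 2 * g) :
    (Nat.card {P : Finset G // Half c P ∧ ∃ χ : G →* ℂˣ, χ c = -1 ∧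
      ∑ x ∈ P, (χ x : ℂ) = 0} : ℝ) ≤
      2 ^ g * (oddc c 2 / Real.sqrt g + (2 * oddc c 4 + 3 * oddc c 6 + 648) / g) := by
  classical
  have : Finite (G →* ℂˣ) := inferInstance
  have : Fintype (G →* ℂˣ) := Fintype.ofFinite _
  have hcardX : Fintype.card (G →* ℂˣ) = 2 * g := by
    rw [← hg, ← Nat.card_eq_fintype_card, ← Nat.card_eq_fintype_card]
    exact CommGroup.card_monoidHom_of_hasEnoughRootsOfUnity G ℂ
  have hgpos : 0 < g := by
    have : 0 < Fintype.card G := Fintype.card_pos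
    omega
  have hg' : (0 : ℝ) < g := by exact_mod_cast hgpos
  -- union bound
  set X : Finset (G →* ℂˣ) := Finset.univ.filter (fun χ => χ c = -1) with hX
  have h1 : Nat.card {P : Finset G // Half c P ∧ ∃ χ : G →* ℂˣ, χ c = -1 ∧
      ∑ x ∈ P, (χ x : ℂ) = 0} ≤
      ∑ χ ∈ X, Nat.card {P : Finset G // Half c P ∧ ∑ x ∈ P, (χ x : ℂ) = 0} := by
    have e1 : ∀ p : Finset G → Prop, Nat.card {P : Finset G // p P} =
        (Finset.univ.filter p).card := by
      intro p
      rw [Nat.card_eq_fintype_card, Fintype.card_subtype]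
    rw [e1, Finset.sum_congr rfl fun χ _ => e1 _]
    refine le_trans (Finset.card_le_card ?_) Finset.card_biUnion_le
    intro P hP
    simp only [Finset.mem_filter, Finset.mem_univ, true_and] at hP
    obtain ⟨hP1, χ, hχ, hs⟩ := hP
    rw [Finset.mem_biUnion]
    refine ⟨χ, ?_, ?_⟩
    · rw [hX, Finset.mem_filter]
      exact ⟨Finset.mem_univ _, hχ⟩
    · simp only [Finset.mem_filter, Finset.mem_univ, true_and]
      exact ⟨hP1, hs⟩
  have h2 : (Nat.card {P : Finset G // Half c P ∧ ∃ χ : G →* ℂˣ, χ c = -1 ∧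
      ∑ x ∈ P, (χ x : ℂ) = 0} : ℝ) ≤ ∑ χ ∈ X, 2 ^ g * wt g (Nat.card χ.range) := by
    refine le_trans (Nat.cast_le.2 h1) ?_
    push_cast
    exact Finset.sum_le_sum fun χ hχ => char_real c hc g hg χ (Finset.mem_filter.1 hχ).2
  refine le_trans h2 ?_
  rw [← Finset.mul_sum]
  refine mul_le_mul_of_nonneg_left ?_ (by positivity)
  have h3 : ∀ χ : G →* ℂˣ, wt g (Nat.card χ.range) ≤
      (if Nat.card χ.range = 2 then 1 / Real.sqrt g else 0) +
      ((if Nat.card χ.range = 4 then 2 / (g : ℝ) else 0) +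
      ((if Nat.card χ.range = 6 then 3 / (g : ℝ) else 0) + 324 / (g : ℝ) ^ 2)) := by
    intro χ
    have p1 : 0 ≤ 1 / Real.sqrt g := by positivity
    have p2 : 0 ≤ 324 / (g : ℝ) ^ 2 := by positivity
    unfold wt
    by_cases k2 : Nat.card χ.range = 2
    · simp only [k2, if_true]
      norm_num
      exact p2
    · by_cases k4 : Nat.card χ.range = 4
      · simp only [k4]
        norm_num
        exact p2
      · by_cases k6 : Nat.card χ.range = 6
        · simp only [k6]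
          norm_num
          exact p2
        · rw [if_neg k2, if_neg k4, if_neg k6, if_neg k2, if_neg k4, if_neg k6]
          simp
  have h4 : ∀ k : ℕ, ((X.filter (fun χ : G →* ℂˣ => Nat.card χ.range = k)).card : ℝ) =
      oddc c k := by
    intro k
    rw [oddc, Nat.card_eq_fintype_card, Fintype.card_subtype, hX, Finset.filter_filter]
  have h5 : (X.card : ℝ) ≤ 2 * g := by
    have := Finset.card_le_univ X
    rw [hcardX] at this
    exact_mod_cast this
  refine le_trans (Finset.sum_le_sum fun χ _ => h3 χ) ?_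
  rw [Finset.sum_add_distrib, Finset.sum_add_distrib, Finset.sum_add_distrib,
    ← Finset.sum_filter, ← Finset.sum_filter, ← Finset.sum_filter, Finset.sum_const,
    Finset.sum_const, Finset.sum_const, Finset.sum_const, nsmul_eq_mul, nsmul_eq_mul,
    nsmul_eq_mul, nsmul_eq_mul, h4, h4, h4]
  have h6 : (X.card : ℝ) * (324 / (g : ℝ) ^ 2) ≤ 648 / (g : ℝ) := by
    calc (X.card : ℝ) * (324 / (g : ℝ) ^ 2) ≤ (2 * (g : ℝ)) * (324 / (g : ℝ) ^ 2) := by gcongr
      _ = 648 / (g : ℝ) := by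
        field_simp
        norm_num
  calc _ ≤ (oddc c 2 : ℝ) * (1 / Real.sqrt g) + ((oddc c 4 : ℝ) * (2 / g) +
        ((oddc c 6 : ℝ) * (3 / g) + 648 / g)) := by gcongr
    _ = _ := by ring

end Pool.Agent.CMT
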