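import Mathlib
import Pool.Agent.CMT.Core

set_option autoImplicit false

/-!
# Kubota's criterion and bounds for the number of odd characters
-/

namespace Pool.Agent.CMT

open Finset
open scoped BigOperators

variable {G : Type} [CommGroup G] [Fintype G]

/-- orthogonality: an integer valued function with vanishing character sums is zero -/
theorem eq_zero_of_sums (u : G → ℂ) (h : ∀ χ : G →* ℂˣ, ∑ x, u x * (χ x : ℂ) = 0) : u = 0 := by
  classical
  have : Finite (G →* ℂˣ) := inferInstance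
  have : Fintype (G →* ℂˣ) := Fintype.ofFinite _
  have horth : ∀ x : G, x ≠ 1 → ∑ χ : G →* ℂˣ, (χ x : ℂ) = 0 := by
    intro x hx
    obtain ⟨ψ, hψ⟩ := CommGroup.exists_apply_ne_one_of_hasEnoughRootsOfUnity G ℂ hx
    have h1 : ∑ χ : G →* ℂˣ, (χ x : ℂ) = (ψ x : ℂ) * ∑ χ : G →* ℂˣ, (χ x : ℂ) := by
      rw [Finset.mul_sum]
      exact (Fintype.sum_equiv (Equiv.mulLeft ψ) _ _ (fun χ => by simp)).symm
    have h2 : (1 - (ψ x : ℂ)) * ∑ χ : G →* ℂˣ, (χ x : ℂ) = 0 := by
      rw [sub_mul, one_mul, ← h1, sub_self]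
    rcases mul_eq_zero.1 h2 with h3 | h3
    · exact absurd (Units.ext (sub_eq_zero.1 h3).symm) hψ
    · exact h3
  funext y
  have h1 : ∑ χ : G →* ℂˣ, (χ y⁻¹ : ℂ) * ∑ x, u x * (χ x : ℂ) = 0 :=
    Finset.sum_eq_zero fun χ _ => by rw [h χ, mul_zero]
  have h2 : ∑ χ : G →* ℂˣ, (χ y⁻¹ : ℂ) * ∑ x, u x * (χ x : ℂ) =
      ∑ x, u x * ∑ χ : G →* ℂˣ, (χ (y⁻¹ * x) : ℂ) := by
    simp_rw [Finset.mul_sum]
    rw [Finset.sum_comm]
    refine Finset.sum_congr rfl fun x _ => Finset.sum_congr rfl fun χ _ => ?_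
    rw [map_mul, Units.val_mul]
    ring
  rw [h2, Finset.sum_eq_single y] at h1
  · simp only [inv_mul_cancel, map_one, Units.val_one, Finset.sum_const, Finset.card_univ,
      nsmul_eq_mul, mul_one] at h1
    rcases mul_eq_zero.1 h1 with h3 | h3
    · simpa using h3
    · have : 0 < Fintype.card (G →* ℂˣ) := Fintype.card_pos
      exact absurd h3 (by exact_mod_cast this.ne')
  · intro x _ hx
    rw [horth _ (fun h3 => hx (inv_mul_eq_one.1 h3).symm), mul_zero]
  · intro h3
    exact absurd (Finset.mem_univ _) h3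

/-- Kubota's criterion: an odd function orthogonal to all translates of a half system with
non-vanishing odd character sums is zero -/
theorem kubota [DecidableEq G] (c : G) (hc : c * c = 1) (P : Finset G)
    (hnd : ∀ χ : G →* ℂˣ, χ c = -1 → ∑ x ∈ P, (χ x : ℂ) ≠ 0) (u : G → ℤ)
    (hodd : ∀ x, u (c * x) = -u x) (h : ∀ t, ∑ x, (if t * x ∈ P then u x else 0) = 0) :
    u = 0 := by
  have key : (fun x => (u x : ℂ)) = 0 := by
    refine eq_zero_of_sums _ fun χ => ?_
    have hcc : χ c * χ c = 1 := by rw [← map_mul, hc, map_one]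
    have hcc' : (χ c : ℂ) = 1 ∨ (χ c : ℂ) = -1 := by
      have h1 : (χ c : ℂ) * (χ c : ℂ) = 1 := by
        rw [← Units.val_mul, hcc, Units.val_one]
      exact mul_self_eq_one_iff.1 h1
    rcases hcc' with h1 | h1
    · -- even characters
      have h2 : ∑ x, (u x : ℂ) * (χ x : ℂ) = ∑ x, (u (c * x) : ℂ) * (χ (c * x) : ℂ) :=
        (Fintype.sum_equiv (Equiv.mulLeft c) _ _ (fun x => by simp)).symm
      have h3 : ∑ x, (u (c * x) : ℂ) * (χ (c * x) : ℂ) = -∑ x, (u x : ℂ) * (χ x : ℂ) := by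
        rw [← Finset.sum_neg_distrib]
        refine Finset.sum_congr rfl fun x _ => ?_
        rw [hodd, map_mul, Units.val_mul, h1]
        push_cast
        ring
      have h4 := h2.trans h3
      have h5 : (2 : ℂ) * ∑ x, (u x : ℂ) * (χ x : ℂ) = 0 := by linear_combination h4
      simpa using h5
    · -- odd characters
      have hχc : (χ⁻¹ : G →* ℂˣ) c = -1 := by
        rw [MonoidHom.inv_apply, inv_eq_iff_eq_inv]
        ext
        simp [h1]
      have h2 : ∑ t : G, ((χ⁻¹ : G →* ℂˣ) t : ℂ) * ∑ x, (if t * x ∈ P then (u x : ℂ) else 0) =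
          0 := by
        refine Finset.sum_eq_zero fun t _ => ?_
        have h3 : ∑ x, (if t * x ∈ P then (u x : ℂ) else 0) =
            ((∑ x, (if t * x ∈ P then u x else 0) : ℤ) : ℂ) := by
          push_cast
          rfl
        rw [h3, h t]
        simp
      have h3 : ∑ t : G, ((χ⁻¹ : G →* ℂˣ) t : ℂ) * ∑ x, (if t * x ∈ P then (u x : ℂ) else 0) =
          (∑ x, (u x : ℂ) * (χ x : ℂ)) * ∑ y ∈ P, ((χ⁻¹ : G →* ℂˣ) y : ℂ) := by
        simp_rw [Finset.mul_sum (s := Finset.univ)]
        rw [Finset.sum_comm, Finset.sum_mul]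
        refine Finset.sum_congr rfl fun x _ => ?_
        have h4 : ∑ t : G, ((χ⁻¹ : G →* ℂˣ) t : ℂ) * (if t * x ∈ P then (u x : ℂ) else 0) =
            ∑ y : G, ((χ⁻¹ : G →* ℂˣ) (y * x⁻¹) : ℂ) * (if y ∈ P then (u x : ℂ) else 0) :=
          Fintype.sum_equiv (Equiv.mulRight x) _ _
            (fun t => by rw [Equiv.coe_mulRight, mul_inv_cancel_right])
        rw [h4, Finset.mul_sum, ← Finset.sum_subset (Finset.subset_univ P)]
        · refine Finset.sum_congr rfl fun y hy => ?_
          rw [if_pos hy]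
          simp only [MonoidHom.inv_apply, map_inv, map_mul, Units.val_inv_eq_inv_val,
            Units.val_mul, inv_inv]
          ring
        · intro y _ hy
          rw [if_neg hy, mul_zero]
      rw [h3] at h2
      rcases mul_eq_zero.1 h2 with h4 | h4
      · exact h4
      · exact absurd h4 (hnd _ hχc)
  funext x
  have := congrFun key x
  simpa using this

/-- the number of odd characters of order `k` of a group with `r` generators -/
theorem oddc_le_rank (c : G) (k r : ℕ) (hk : 1 ≤ k) (S : Finset G) (hS : S.card ≤ r)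
    (hcl : Subgroup.closure (S : Set G) = ⊤) : oddc c k ≤ k ^ r := by
  classical
  have : NeZero k := ⟨by omega⟩
  have h1 : Nat.card (S → rootsOfUnity k ℂ) ≤ k ^ S.card := by
    rw [Nat.card_fun]
    have h2 : Nat.card S = S.card := by simp
    rw [h2]
    exact Nat.pow_le_pow_left (card_rootsOfUnity ℂ k) _
  refine le_trans ?_ (le_trans h1 (Nat.pow_le_pow_right hk hS))
  unfold oddc
  refine Nat.card_le_card_of_injective
    (fun χ (s : S) => ⟨χ.1 s, ?_⟩) ?_
  · rw [mem_rootsOfUnity]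
    have h2 : (⟨χ.1 s, s, rfl⟩ : χ.1.range) ^ Nat.card χ.1.range = 1 := pow_card_eq_one'
    rw [χ.2.2] at h2
    exact congrArg Subtype.val h2
  · intro χ ψ h
    refine Subtype.ext (MonoidHom.eq_of_eqOn_dense hcl fun x hx => ?_)
    exact congrArg Subtype.val (congrFun h ⟨x, hx⟩)

/-- the number of odd characters of order `k` in terms of subgroups with cyclic quotient -/
theorem oddc_le_sub (c : G) (k : ℕ) (hk : 1 ≤ k) : oddc c k ≤ k.totient *
    Nat.card {H : Subgroup G // c ∉ H ∧ H.index = k ∧ IsCyclic (G ⧸ H)} := by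
  classical
  have : Finite (G →* ℂˣ) := inferInstance
  have : Fintype (G →* ℂˣ) := Fintype.ofFinite _
  have : Fintype (Subgroup G) := Fintype.ofFinite _
  have hpr : (primitiveRoots k ℂ).card = k.totient := Complex.card_primitiveRoots k
  unfold oddc
  rw [Nat.card_eq_fintype_card, Nat.card_eq_fintype_card, ← Finset.card_univ, ← Finset.card_univ,
    ← hpr]
  refine Finset.card_le_mul_card_image_of_maps_to
    (f := fun χ : {χ : G →* ℂˣ // χ c = -1 ∧ Nat.card χ.range = k} =>
      (⟨χ.1.ker, ?_, ?_, ?_⟩ : {H : Subgroup G // c ∉ H ∧ H.index = k ∧ IsCyclic (G ⧸ H)}))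
    (fun _ _ => Finset.mem_univ _) _ ?_
  · intro h
    rw [MonoidHom.mem_ker, χ.2.1] at h
    have h1 := congrArg (fun t : ℂˣ => (t : ℂ)) h
    norm_num at h1
  · rw [Subgroup.index_ker]
    exact χ.2.2
  · have e := QuotientGroup.quotientKerEquivRange χ.1
    have : IsCyclic χ.1.range := inferInstance
    exact isCyclic_of_surjective e.symm e.symm.surjective
  · rintro ⟨H, hH1, hH2, hH3⟩ -
    obtain ⟨y, hy⟩ := IsCyclic.exists_generator (α := G ⧸ H)
    obtain ⟨x0, rfl⟩ := QuotientGroup.mk_surjective y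
    have hord : orderOf (x0 : G ⧸ H) = k := by
      rw [orderOf_eq_card_of_forall_mem_zpowers hy, ← hH2]
      rfl
    refine Finset.card_le_card_of_injOn (fun χ => ((χ.1 x0 : ℂˣ) : ℂ)) ?_ ?_
    · intro χ hχ
      rw [Finset.mem_coe, Finset.mem_filter] at hχ
      have hker : χ.1.ker = H := congrArg Subtype.val hχ.2
      rw [Finset.mem_coe, mem_primitiveRoots (by omega)]
      refine (IsPrimitiveRoot.coe_units_iff).2 ?_
      have e1 : orderOf (χ.1 x0) = orderOf (x0 : G ⧸ H) := by
        refine orderOf_eq_orderOf_iff.2 fun j => ?_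
        rw [← map_pow, ← MonoidHom.mem_ker, hker, ← QuotientGroup.mk_pow,
          QuotientGroup.eq_one_iff]
      rw [IsPrimitiveRoot.iff_orderOf]
      exact e1.trans hord
    · intro χ hχ ψ hψ h
      rw [Finset.mem_coe, Finset.mem_filter] at hχ hψ
      have hker : χ.1.ker = H := congrArg Subtype.val hχ.2
      have hker' : ψ.1.ker = H := congrArg Subtype.val hψ.2
      have h0 : χ.1 x0 = ψ.1 x0 := Units.ext h
      refine Subtype.ext (MonoidHom.ext fun x => ?_)
      obtain ⟨j, hj⟩ := Subgroup.mem_zpowers_iff.1 (hy (x : G ⧸ H))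
      rw [← QuotientGroup.mk_zpow, QuotientGroup.eq] at hj
      have e1 : χ.1 ((x0 ^ j)⁻¹ * x) = 1 := by rwa [← MonoidHom.mem_ker, hker]
      have e2 : ψ.1 ((x0 ^ j)⁻¹ * x) = 1 := by rwa [← MonoidHom.mem_ker, hker']
      rw [map_mul, map_inv, inv_mul_eq_one, map_zpow] at e1 e2
      rw [← e1, ← e2, h0]

end Pool.Agent.CMT
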