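import Mathlib
import Pool.Agent.CMT.Defs
import Pool.Agent.CMT.Kubota

set_option autoImplicit false
set_option linter.unusedSectionVars false

/-!
# CM types of abelian CM fields
-/

namespace Pool.Agent.CMT

open NumberField

section setup

variable (K : Type) [Field K] [NumberField K] [IsAbelianGalois ℚ K] [IsTotallyComplex K]

/-- the Galois group is a commutative group -/
noncomputable instance : CommGroup (K ≃ₐ[ℚ] K) :=
  { (inferInstance : Group (K ≃ₐ[ℚ] K)) with
    mul_comm := fun a b => mul_comm' a b }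

/-- complex conjugation as an element of the Galois group -/
noncomputable def cj : K ≃ₐ[ℚ] K := (IsCMField.complexConj K).restrictScalars ℚ

theorem cj_apply (x : K) : cj K x = IsCMField.complexConj K x := rfl

theorem cj_mul : cj K * cj K = 1 := by
  ext x
  simp [AlgEquiv.mul_apply, cj_apply]

theorem cj_ne : cj K ≠ 1 := by
  intro h
  apply IsCMField.complexConj_ne_one K
  ext x
  have := AlgEquiv.congr_fun h x
  simpa [cj_apply] using this

/-- a base embedding -/
noncomputable def base : K →+* QBar := ((IsAlgClosed.lift : K →ₐ[ℚ] QBar) : K →+* QBar)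

/-- the embeddings are a torsor -/
noncomputable def emb (σ : K ≃ₐ[ℚ] K) : K →+* QBar := (base K).comp (σ : K →+* K)

theorem emb_apply (σ : K ≃ₐ[ℚ] K) (x : K) : emb K σ x = base K (σ x) := rfl

theorem emb_bij : Function.Bijective (emb K) := by
  rw [Fintype.bijective_iff_injective_and_card]
  constructor
  · intro σ τ h
    ext x
    exact (base K).injective (RingHom.congr_fun h x)
  · rw [← Nat.card_eq_fintype_card, IsGalois.card_aut_eq_finrank, NumberField.Embeddings.card]

/-- automorphisms of the algebraic closure inducing a given automorphism -/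
theorem exists_lift (t : K ≃ₐ[ℚ] K) : ∃ τ : QBar ≃+* QBar, ∀ x, τ (base K x) = base K (t x) := by
  let _ : Algebra K QBar := (base K).toAlgebra
  have : IsScalarTower ℚ K QBar := IsScalarTower.of_algebraMap_eq' (Subsingleton.elim _ _)
  have h0 : Algebra.IsAlgebraic ℚ QBar := by
    have e : (AlgebraicClosure.instAlgebra ℚ : Algebra ℚ (AlgebraicClosure ℚ)) =
        (DivisionRing.toRatAlgebra : Algebra ℚ QBar) := Subsingleton.elim _ _
    have h := AlgebraicClosure.isAlgebraic ℚ
    rw [e] at h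
    exact h
  have : Algebra.IsAlgebraic K QBar := Algebra.IsAlgebraic.tower_top (K := ℚ) K
  have : IsAlgClosure K QBar := ⟨inferInstance, inferInstance⟩
  exact ⟨IsAlgClosure.equivOfEquiv QBar QBar (t : K ≃+* K), fun x =>
    IsAlgClosure.equivOfEquiv_algebraMap QBar QBar (t : K ≃+* K) x⟩

theorem comp_emb (t : K ≃ₐ[ℚ] K) : ∃ τ : QBar ≃+* QBar, ∀ σ : K ≃ₐ[ℚ] K,
    (τ : QBar →+* QBar).comp (emb K σ) = emb K (t * σ) := by
  obtain ⟨τ, hτ⟩ := exists_lift K t
  refine ⟨τ, fun σ => RingHom.ext fun x => ?_⟩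
  exact hτ (σ x)

theorem exists_comp (τ : QBar ≃+* QBar) : ∃ t : K ≃ₐ[ℚ] K, ∀ σ : K ≃ₐ[ℚ] K,
    (τ : QBar →+* QBar).comp (emb K σ) = emb K (t * σ) := by
  obtain ⟨t, ht⟩ := (emb_bij K).2 ((τ : QBar →+* QBar).comp (base K))
  refine ⟨t, fun σ => RingHom.ext fun x => ?_⟩
  have := RingHom.congr_fun ht (σ x)
  exact this.symm

theorem emb_cj (σ : K ≃ₐ[ℚ] K) :
    (emb K σ).comp (IsCMField.complexConj K : K →+* K) = emb K (cj K * σ) := by
  rw [mul_comm]
  rfl

open Classical in
/-- the subset of the Galois group given by a set of embeddings -/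
noncomputable def ps (Φ : Finset (K →+* QBar)) : Finset (K ≃ₐ[ℚ] K) :=
  Finset.univ.filter (fun σ => emb K σ ∈ Φ)

theorem mem_ps (Φ : Finset (K →+* QBar)) (σ : K ≃ₐ[ℚ] K) : σ ∈ ps K Φ ↔ emb K σ ∈ Φ := by
  classical
  simp [ps]

theorem isCMType_iff (Φ : Finset (K →+* QBar)) : IsCMType K Φ ↔ Half (cj K) (ps K Φ) := by
  constructor
  · intro h σ
    rw [mem_ps, mem_ps, ← emb_cj]
    exact h _
  · intro h φ
    obtain ⟨σ, rfl⟩ := (emb_bij K).2 φ
    rw [emb_cj, ← mem_ps, ← mem_ps]
    exact h σ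

/-- a set of embeddings is determined by the subset of the Galois group -/
noncomputable def psEquiv : Finset (K →+* QBar) ≃ Finset (K ≃ₐ[ℚ] K) where
  toFun := ps K
  invFun := fun P => P.map ⟨emb K, (emb_bij K).1⟩
  left_inv := by
    intro Φ
    ext φ
    obtain ⟨σ, rfl⟩ := (emb_bij K).2 φ
    simp only [Finset.mem_map, Function.Embedding.coeFn_mk]
    constructor
    · rintro ⟨τ, h1, h2⟩
      rw [mem_ps, h2] at h1
      exact h1
    · intro h
      exact ⟨σ, (mem_ps K Φ σ).2 h, rfl⟩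
  right_inv := by
    intro P
    ext σ
    rw [mem_ps]
    simp only [Finset.mem_map, Function.Embedding.coeFn_mk]
    constructor
    · rintro ⟨τ, h1, h2⟩
      rwa [← (emb_bij K).1 h2]
    · intro h
      exact ⟨σ, h, rfl⟩

open Classical in
/-- `TateWeight` in terms of the Galois group -/
theorem tateWeight_count {Φ : Finset (K →+* QBar)} {n i : ℕ}
    {Δ : Finset ((K →+* QBar) × Fin n)} (h : TateWeight Φ i Δ) (t : K ≃ₐ[ℚ] K) :
    ∑ σ : K ≃ₐ[ℚ] K, (if t * σ ∈ ps K Φ then
      ({j : Fin n | (emb K σ, j) ∈ Δ}.ncard : ℤ) else 0) = i := by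
  obtain ⟨τ, hτ⟩ := comp_emb K t
  rw [← h.2 τ]
  have h1 : {p : (K →+* QBar) × Fin n | p ∈ Δ ∧ (τ : QBar →+* QBar).comp p.1 ∈ Φ}.ncard =
      (Δ.filter (fun p => (τ : QBar →+* QBar).comp p.1 ∈ Φ)).card := by
    rw [← Set.ncard_coe_finset]
    congr 1
    ext p
    simp
  rw [h1]
  have h2 : (Δ.filter (fun p => (τ : QBar →+* QBar).comp p.1 ∈ Φ)).card =
      ∑ σ : K ≃ₐ[ℚ] K, ((Δ.filter (fun p => (τ : QBar →+* QBar).comp p.1 ∈ Φ)).filter
        (fun p => p.1 = emb K σ)).card := by
    have h3 := Finset.card_eq_sum_card_fiberwise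
      (s := Δ.filter (fun p => (τ : QBar →+* QBar).comp p.1 ∈ Φ))
      (f := fun p => (Equiv.ofBijective _ (emb_bij K)).symm p.1)
      (t := (Finset.univ : Finset (K ≃ₐ[ℚ] K))) (fun _ _ => by simp)
    rw [h3]
    refine Finset.sum_congr rfl fun σ _ => ?_
    congr 1
    ext p
    simp only [Finset.mem_filter]
    rw [Equiv.symm_apply_eq]
    rfl
  rw [h2]
  push_cast
  refine Finset.sum_congr rfl fun σ _ => ?_
  simp only [mem_ps, ← hτ σ]
  split_ifs with h4
  · rw [← Set.ncard_coe_finset]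
    congr 1
    refine Set.ncard_congr (fun j _ => (emb K σ, j)) ?_ ?_ ?_
    · intro j hj
      simp only [Finset.coe_filter, Finset.mem_filter, Set.mem_ofPred_eq]
      exact ⟨⟨hj, h4⟩, trivial⟩
    · intro a b _ _ hab
      exact congrArg Prod.snd hab
    · rintro ⟨φ, j⟩ hj
      simp only [Finset.coe_filter, Finset.mem_filter, Set.mem_ofPred_eq] at hj
      obtain ⟨⟨hj1, -⟩, rfl⟩ := hj
      exact ⟨j, hj1, rfl⟩
  · symm
    norm_cast
    rw [Finset.card_eq_zero, Finset.filter_eq_empty_iff]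
    intro p hp h5
    rw [Finset.mem_filter, h5] at hp
    exact h4 hp.2

end setup

end Pool.Agent.CMT
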