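import Mathlib
import Pool.Agent.CMT.Types

set_option autoImplicit false
set_option linter.unusedSectionVars false

/-!
# Non-degenerate CM types: all Tate classes are products of divisor classes
-/

namespace Pool.Agent.CMT

open NumberField

section conj

variable {K : Type} [Field K] [NumberField K] [IsCMField K]

/-- the complex conjugate embedding -/
noncomputable def cc (φ : K →+* QBar) : K →+* QBar :=
  φ.comp (IsCMField.complexConj K : K →+* K)

theorem cc_cc (φ : K →+* QBar) : cc (cc φ) = φ := by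
  ext x
  simp [cc]

theorem cc_mem {Φ : Finset (K →+* QBar)} (hΦ : IsCMType K Φ) (φ : K →+* QBar) :
    φ ∈ Φ ↔ cc φ ∉ Φ := hΦ φ

theorem comp_cc (τ : QBar ≃+* QBar) (φ : K →+* QBar) :
    (τ : QBar →+* QBar).comp (cc φ) = cc ((τ : QBar →+* QBar).comp φ) := rfl

open Classical in
/-- the indices of an embedding -/
noncomputable def idx {n : ℕ} (Δ : Finset ((K →+* QBar) × Fin n)) (φ : K →+* QBar) :
    Finset (Fin n) := Finset.univ.filter (fun j => (φ, j) ∈ Δ)

theorem mem_idx {n : ℕ} {Δ : Finset ((K →+* QBar) × Fin n)} {φ : K →+* QBar} {j : Fin n} :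
    j ∈ idx Δ φ ↔ (φ, j) ∈ Δ := by
  classical
  simp [idx]

theorem pair_weight {Φ : Finset (K →+* QBar)} (hΦ : IsCMType K Φ) {n : ℕ} (φ : K →+* QBar)
    (j l : Fin n) (B : Finset ((K →+* QBar) × Fin n))
    (hB : ∀ p, p ∈ B ↔ p = (φ, j) ∨ p = (cc φ, l)) : TateWeight Φ 1 B := by
  classical
  have hne : ∀ ψ : K →+* QBar, ψ ≠ cc ψ := by
    intro ψ h
    have h1 := cc_mem hΦ ψ
    rw [← h] at h1
    tauto
  have hB' : B = {(φ, j), (cc φ, l)} := by
    ext p
    rw [hB]
    simp
  refine ⟨?_, fun τ => ?_⟩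
  · rw [hB', Finset.card_pair]
    intro h
    exact hne φ (congrArg Prod.fst h)
  · by_cases h : (τ : QBar →+* QBar).comp φ ∈ Φ
    · have h1 : {p : (K →+* QBar) × Fin n | p ∈ B ∧ (τ : QBar →+* QBar).comp p.1 ∈ Φ} =
          {(φ, j)} := by
        ext p
        simp only [Set.mem_ofPred_eq, Set.mem_singleton_iff]
        constructor
        · rintro ⟨h2, h3⟩
          rcases (hB p).1 h2 with h4 | h4
          · exact h4
          · exfalso
            rw [h4] at h3
            rw [show ((cc φ, l) : (K →+* QBar) × Fin n).1 = cc φ from rfl, comp_cc] at h3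
            exact ((cc_mem hΦ _).1 h) h3
        · rintro rfl
          exact ⟨(hB _).2 (Or.inl rfl), h⟩
      rw [h1, Set.ncard_singleton]
    · have h1 : {p : (K →+* QBar) × Fin n | p ∈ B ∧ (τ : QBar →+* QBar).comp p.1 ∈ Φ} =
          {(cc φ, l)} := by
        ext p
        simp only [Set.mem_ofPred_eq, Set.mem_singleton_iff]
        constructor
        · rintro ⟨h2, h3⟩
          rcases (hB p).1 h2 with h4 | h4
          · exfalso
            rw [h4] at h3
            exact h h3
          · exact h4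
        · rintro rfl
          refine ⟨(hB _).2 (Or.inr rfl), ?_⟩
          rw [show ((cc φ, l) : (K →+* QBar) × Fin n).1 = cc φ from rfl, comp_cc]
          by_contra h2
          exact h ((cc_mem hΦ _).2 h2)
      rw [h1, Set.ncard_singleton]

/-- a conjugation invariant weight is divisorial -/
theorem divisorial_of_count {Φ : Finset (K →+* QBar)} (hΦ : IsCMType K Φ) {n : ℕ}
    {Δ : Finset ((K →+* QBar) × Fin n)} (h : ∀ φ, (idx Δ φ).card = (idx Δ (cc φ)).card) :
    Divisorial Φ Δ := by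
  classical
  have h0 : ∀ φ, ∃ e : Fin n → Fin n, Set.BijOn e (idx Δ φ) (idx Δ (cc φ)) := by
    intro φ
    let f := Finset.equivOfCardEq (h φ)
    refine ⟨fun j => if hj : j ∈ idx Δ φ then (f ⟨j, hj⟩).1 else j, ?_, ?_, ?_⟩
    · intro j hj
      have hj' : j ∈ idx Δ φ := hj
      simp only [dif_pos hj']
      exact (f ⟨j, hj'⟩).2
    · intro j hj l hl hjl
      have hj' : j ∈ idx Δ φ := hj
      have hl' : l ∈ idx Δ φ := hl
      simp only [dif_pos hj', dif_pos hl'] at hjl
      have := f.injective (Subtype.ext hjl)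
      exact congrArg Subtype.val this
    · intro l hl
      have hl' : l ∈ idx Δ (cc φ) := hl
      refine ⟨(f.symm ⟨l, hl'⟩).1, (f.symm ⟨l, hl'⟩).2, ?_⟩
      have hj' : (f.symm ⟨l, hl'⟩).1 ∈ idx Δ φ := (f.symm ⟨l, hl'⟩).2
      simp only [dif_pos hj']
      rw [Subtype.coe_eta, Equiv.apply_symm_apply]
  choose e he using h0
  let B : (K →+* QBar) × Fin n → Finset ((K →+* QBar) × Fin n) :=
    fun p => {p, (cc p.1, e p.1 p.2)}
  have hBmem : ∀ p q, q ∈ B p ↔ q = p ∨ q = (cc p.1, e p.1 p.2) := by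
    intro p q
    simp [B]
  refine ⟨(Δ.filter (fun p => p.1 ∈ Φ)).image B, ?_, ?_, ?_⟩
  · -- disjoint
    intro B1 h1 B2 h2 hne
    rw [Finset.mem_coe, Finset.mem_image] at h1 h2
    obtain ⟨p, hp, rfl⟩ := h1
    obtain ⟨q, hq, rfl⟩ := h2
    rw [Finset.mem_filter] at hp hq
    rw [Function.onFun, id, id, Finset.disjoint_left]
    intro z hz1 hz2
    rw [hBmem] at hz1 hz2
    have hpc : cc p.1 ∉ Φ := (cc_mem hΦ _).1 hp.2
    have hqc : cc q.1 ∉ Φ := (cc_mem hΦ _).1 hq.2
    rcases hz1 with rfl | rfl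
    · rcases hz2 with rfl | h3
      · exact hne rfl
      · apply hqc
        rw [← show z.1 = cc q.1 from congrArg Prod.fst h3]
        exact hp.2
    · rcases hz2 with h3 | h3
      · apply hpc
        rw [show cc p.1 = q.1 from congrArg Prod.fst h3]
        exact hq.2
      · have h4 : cc p.1 = cc q.1 := congrArg Prod.fst h3
        have h5 : p.1 = q.1 := by rw [← cc_cc p.1, h4, cc_cc]
        have h6 : e p.1 p.2 = e q.1 q.2 := congrArg Prod.snd h3
        rw [← h5] at h6
        have h7 : p.2 = q.2 := by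
          refine (he p.1).injOn ?_ ?_ h6
          · exact Finset.mem_coe.2 (mem_idx.2 hp.1)
          · rw [h5]
            exact Finset.mem_coe.2 (mem_idx.2 hq.1)
        exact hne (by rw [Prod.ext h5 h7])
  · -- union
    intro p
    constructor
    · intro hp
      by_cases hpΦ : p.1 ∈ Φ
      · exact ⟨B p, Finset.mem_image_of_mem _ (Finset.mem_filter.2 ⟨hp, hpΦ⟩),
          (hBmem p p).2 (Or.inl rfl)⟩
      · have h1 : cc p.1 ∈ Φ := by
          by_contra h2
          exact hpΦ ((cc_mem hΦ _).2 h2)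
        have h2 : p.2 ∈ (idx Δ (cc (cc p.1)) : Set (Fin n)) := by
          rw [cc_cc]
          exact Finset.mem_coe.2 (mem_idx.2 hp)
        obtain ⟨j, hj, hj2⟩ := (he (cc p.1)).surjOn h2
        refine ⟨B (cc p.1, j), Finset.mem_image_of_mem _
          (Finset.mem_filter.2 ⟨mem_idx.1 (Finset.mem_coe.1 hj), h1⟩), (hBmem _ _).2 (Or.inr ?_)⟩
        exact Prod.ext (cc_cc p.1).symm hj2.symm
    · rintro ⟨B1, h1, h2⟩
      rw [Finset.mem_image] at h1
      obtain ⟨q, hq, rfl⟩ := h1
      rw [Finset.mem_filter] at hq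
      rcases (hBmem _ _).1 h2 with rfl | rfl
      · exact hq.1
      · exact mem_idx.1 (Finset.mem_coe.1 ((he q.1).mapsTo (Finset.mem_coe.2 (mem_idx.2 hq.1))))
  · intro B1 h1
    rw [Finset.mem_image] at h1
    obtain ⟨q, hq, rfl⟩ := h1
    exact pair_weight hΦ q.1 q.2 (e q.1 q.2) _ (fun p => hBmem q p)

end conj

section abelian

variable (K : Type) [Field K] [NumberField K] [IsAbelianGalois ℚ K] [IsTotallyComplex K]

theorem ncard_idx {n : ℕ} (Δ : Finset ((K →+* QBar) × Fin n)) (φ : K →+* QBar) :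
    {j : Fin n | (φ, j) ∈ Δ}.ncard = (idx Δ φ).card := by
  rw [← Set.ncard_coe_finset]
  congr 1
  ext j
  rw [Set.mem_ofPred_eq, Finset.mem_coe, mem_idx]

/-- non-degenerate CM types: all Tate classes are products of divisor classes -/
theorem tateByDivisors {Φ : Finset (K →+* QBar)} (hΦ : IsCMType K Φ)
    (hnd : ∀ χ : (K ≃ₐ[ℚ] K) →* ℂˣ, χ (cj K) = -1 → ∑ x ∈ ps K Φ, (χ x : ℂ) ≠ 0) :
    TateByDivisors Φ := by
  classical
  intro n i Δ hΔ
  have hhalf : Half (cj K) (ps K Φ) := (isCMType_iff K Φ).1 hΦ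
  set c := cj K with hc
  have hcc : c * c = 1 := cj_mul K
  set m : (K ≃ₐ[ℚ] K) → ℤ := fun σ => ((idx Δ (emb K σ)).card : ℤ) with hm
  have hcount : ∀ t, ∑ σ, (if t * σ ∈ ps K Φ then m σ else 0) = i := by
    intro t
    have := tateWeight_count K hΔ t
    simp only [ncard_idx] at this
    exact this
  have hu : (fun σ => m σ - m (c * σ)) = (0 : (K ≃ₐ[ℚ] K) → ℤ) := by
    refine kubota c hcc (ps K Φ) hnd _ ?_ ?_
    · intro x
      rw [← mul_assoc, hcc, one_mul]
      ring
    · intro t
      have h1 : ∑ x, (if t * x ∈ ps K Φ then m x - m (c * x) else 0) =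
          ∑ x, (if t * x ∈ ps K Φ then m x else 0) -
          ∑ x, (if t * x ∈ ps K Φ then m (c * x) else 0) := by
        rw [← Finset.sum_sub_distrib]
        refine Finset.sum_congr rfl fun x _ => ?_
        split_ifs <;> ring
      have h2 : ∑ x, (if t * x ∈ ps K Φ then m (c * x) else 0) =
          ∑ x, (if (t * c) * x ∈ ps K Φ then m x else 0) := by
        refine Fintype.sum_equiv (Equiv.mulLeft c) _ _ (fun x => ?_)
        rw [Equiv.coe_mulLeft]
        have : t * c * (c * x) = t * x := by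
          rw [mul_assoc, ← mul_assoc c c x, hcc, one_mul]
        rw [this]
      rw [h1, h2, hcount, hcount, sub_self]
  refine divisorial_of_count hΦ fun φ => ?_
  obtain ⟨σ, rfl⟩ := (emb_bij K).2 φ
  have h1 := congrFun hu σ
  have h2 : cc (emb K σ) = emb K (c * σ) := emb_cj K σ
  rw [h2]
  simp only [hm, Pi.zero_apply] at h1
  omega

end abelian

end Pool.Agent.CMT
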