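import Mathlib
import Pool.Agent.CMT.Divis

set_option autoImplicit false
set_option linter.unusedSectionVars false

/-!
# Almost all CM types of an abelian CM field
-/

namespace Pool.Agent.CMT

open NumberField

theorem exists_half {G : Type} [CommGroup G] [Fintype G] (c : G) (hc : c * c = 1) (hc1 : c ≠ 1) :
    ∃ T : Finset G, Half c T := by
  classical
  let f := Fintype.equivFin G
  refine ⟨Finset.univ.filter (fun x => f x < f (c * x)), fun x => ?_⟩
  simp only [Finset.mem_filter, Finset.mem_univ, true_and]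
  rw [← mul_assoc, hc, one_mul, not_lt]
  have hne : f x ≠ f (c * x) := by
    intro h
    have h1 := f.injective h
    exact hc1 (by simpa using h1.symm)
  constructor
  · intro h
    exact h.le
  · intro h
    exact lt_of_le_of_ne h hne

section abelian

variable (K : Type) [Field K] [NumberField K] [IsAbelianGalois ℚ K] [IsTotallyComplex K]

theorem card_types {g : ℕ} (hg : Module.finrank ℚ K = 2 * g) :
    Nat.card {Φ : Finset (K →+* QBar) // IsCMType K Φ} = 2 ^ g := by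
  classical
  obtain ⟨T, hT⟩ := exists_half (cj K) (cj_mul K) (cj_ne K)
  have h1 := half_card (cj_mul K) hT
  have h2 : Fintype.card (K ≃ₐ[ℚ] K) = 2 * g := by
    rw [← hg, ← Nat.card_eq_fintype_card, IsGalois.card_aut_eq_finrank]
  have h3 : T.card = g := by omega
  rw [← h3, ← half_count (cj_mul K) hT]
  exact Nat.card_congr ((psEquiv K).subtypeEquiv (fun Φ => isCMType_iff K Φ))

theorem sub_le_numIm (k : ℕ) :
    Nat.card {H : Subgroup (K ≃ₐ[ℚ] K) // cj K ∉ H ∧ H.index = k ∧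
      IsCyclic ((K ≃ₐ[ℚ] K) ⧸ H)} ≤ numIm K k := by
  have : Finite (IntermediateField ℚ K) :=
    Finite.of_injective (fun F : IntermediateField ℚ K => F.fixingSubgroup) (fun F F' h => by
      have h1 : F.fixingSubgroup = F'.fixingSubgroup := h
      rw [← IsGalois.fixedField_fixingSubgroup F, h1, IsGalois.fixedField_fixingSubgroup])
  unfold numIm
  refine Nat.card_le_card_of_injective
    (fun H => ⟨IntermediateField.fixedField H.1, ?_, ?_, ?_⟩) ?_
  · rw [IntermediateField.finrank_eq_fixingSubgroup_index,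
      IntermediateField.fixingSubgroup_fixedField]
    exact H.2.2.1
  · have e := IsGalois.normalAutEquivQuotient H.1
    have := H.2.2.2
    exact isCyclic_of_surjective e e.surjective
  · intro h
    apply H.2.1
    rw [← IntermediateField.fixingSubgroup_fixedField H.1, IntermediateField.mem_fixingSubgroup_iff]
    intro x hx
    have h1 : x ∈ maximalRealSubfield K := h hx
    exact (IsCMField.complexConj_eq_self_iff K x).2 h1
  · intro H1 H2 h
    have h1 : IntermediateField.fixedField H1.1 = IntermediateField.fixedField H2.1 :=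
      congrArg Subtype.val h
    refine Subtype.ext ?_
    rw [← IntermediateField.fixingSubgroup_fixedField H1.1, h1,
      IntermediateField.fixingSubgroup_fixedField]

theorem exists_odd (σ : K ≃ₐ[ℚ] K) (hσ : σ ≠ 1) :
    ∃ χ : (K ≃ₐ[ℚ] K) →* ℂˣ, χ (cj K) = -1 ∧ χ σ ≠ 1 := by
  have h0 : ∀ χ : (K ≃ₐ[ℚ] K) →* ℂˣ, χ (cj K) = 1 ∨ χ (cj K) = -1 := by
    intro χ
    have hcc : χ (cj K) * χ (cj K) = 1 := by rw [← map_mul, cj_mul, map_one]
    have h1 : (χ (cj K) : ℂ) * (χ (cj K) : ℂ) = 1 := by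
      rw [← Units.val_mul, hcc, Units.val_one]
    rcases mul_self_eq_one_iff.1 h1 with h2 | h2
    · exact Or.inl (Units.ext h2)
    · exact Or.inr (Units.ext (by rw [h2]; simp))
  obtain ⟨ψ, hψ⟩ := CommGroup.exists_apply_ne_one_of_hasEnoughRootsOfUnity (K ≃ₐ[ℚ] K) ℂ hσ
  obtain ⟨χ, hχ⟩ := CommGroup.exists_apply_ne_one_of_hasEnoughRootsOfUnity (K ≃ₐ[ℚ] K) ℂ (cj_ne K)
  have hχc : χ (cj K) = -1 := (h0 χ).resolve_left hχ
  rcases h0 ψ with h1 | h1
  · by_cases h2 : χ σ = 1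
    · refine ⟨χ * ψ, ?_, ?_⟩
      · rw [MonoidHom.mul_apply, hχc, h1, mul_one]
      · rw [MonoidHom.mul_apply, h2, one_mul]
        exact hψ
    · exact ⟨χ, hχc, h2⟩
  · exact ⟨ψ, h1, hψ⟩

/-- non-degenerate types are primitive -/
theorem isPrimitive {Φ : Finset (K →+* QBar)}
    (hnd : ∀ χ : (K ≃ₐ[ℚ] K) →* ℂˣ, χ (cj K) = -1 → ∑ x ∈ ps K Φ, (χ x : ℂ) ≠ 0) :
    IsPrimitive Φ := by
  classical
  intro σ hσ
  by_contra hne
  obtain ⟨χ, hχ, hχσ⟩ := exists_odd K σ hne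
  have h1 : ∀ x ∈ ps K Φ, σ * x ∈ ps K Φ := by
    intro x hx
    rw [mem_ps] at hx ⊢
    have h2 := hσ _ hx
    have h3 : (emb K x).comp (σ : K →+* K) = emb K (σ * x) := by
      rw [mul_comm]
      rfl
    rwa [h3] at h2
  have h2 : (ps K Φ).image (fun x => σ * x) = ps K Φ := by
    refine Finset.eq_of_subset_of_card_le ?_ ?_
    · intro y hy
      obtain ⟨x, hx, rfl⟩ := Finset.mem_image.1 hy
      exact h1 x hx
    · rw [Finset.card_image_of_injective _ (mul_right_injective σ)]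
  have h3 : ∑ x ∈ ps K Φ, (χ x : ℂ) = (χ σ : ℂ) * ∑ x ∈ ps K Φ, (χ x : ℂ) := by
    conv_lhs => rw [← h2]
    rw [Finset.sum_image (fun _ _ _ _ h => mul_right_injective σ h), Finset.mul_sum]
    refine Finset.sum_congr rfl fun x _ => ?_
    rw [map_mul, Units.val_mul]
  have h4 : (1 - (χ σ : ℂ)) * ∑ x ∈ ps K Φ, (χ x : ℂ) = 0 := by
    rw [sub_mul, one_mul, ← h3, sub_self]
  rcases mul_eq_zero.1 h4 with h5 | h5
  · exact hχσ (Units.ext (sub_eq_zero.1 h5).symm)
  · exact hnd χ hχ h5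

theorem bad_le {g : ℕ} (hg : Module.finrank ℚ K = 2 * g) :
    (Nat.card {Φ : Finset (K →+* QBar) // IsCMType K Φ ∧
      ¬ (IsPrimitive Φ ∧ TateByDivisors Φ)} : ℝ) ≤
      2 ^ g * (oddc (cj K) 2 / Real.sqrt g + (2 * oddc (cj K) 4 + 3 * oddc (cj K) 6 + 648) / g) := by
  classical
  have h2 : Fintype.card (K ≃ₐ[ℚ] K) = 2 * g := by
    rw [← hg, ← Nat.card_eq_fintype_card, IsGalois.card_aut_eq_finrank]
  refine le_trans ?_ (core (cj K) (cj_mul K) g h2)
  have h3 : Nat.card {Φ : Finset (K →+* QBar) // IsCMType K Φ ∧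
      ¬ (IsPrimitive Φ ∧ TateByDivisors Φ)} ≤
      Nat.card {P : Finset (K ≃ₐ[ℚ] K) // Half (cj K) P ∧ ∃ χ : (K ≃ₐ[ℚ] K) →* ℂˣ,
        χ (cj K) = -1 ∧ ∑ x ∈ P, (χ x : ℂ) = 0} := by
    refine Nat.card_le_card_of_injective (fun Φ => ⟨ps K Φ.1, (isCMType_iff K Φ.1).1 Φ.2.1, ?_⟩) ?_
    · by_contra hcon
      push Not at hcon
      exact Φ.2.2 ⟨isPrimitive K hcon, tateByDivisors K Φ.2.1 hcon⟩
    · intro Φ Ψ h
      exact Subtype.ext ((psEquiv K).injective (congrArg Subtype.val h))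
  exact_mod_cast h3

/-- **Main theorem.** -/
theorem bad_le_numIm {g : ℕ} (hg : Module.finrank ℚ K = 2 * g) :
    (Nat.card {Φ : Finset (K →+* QBar) // IsCMType K Φ ∧
      ¬ (IsPrimitive Φ ∧ TateByDivisors Φ)} : ℝ) ≤
      2 ^ g * (numIm K 2 / Real.sqrt g + (4 * numIm K 4 + 6 * numIm K 6 + 648) / g) := by
  refine (bad_le K hg).trans ?_
  have e2 : (oddc (cj K) 2 : ℝ) ≤ numIm K 2 := by
    have h1 := oddc_le_sub (cj K) 2 (by norm_num)
    have h2 := sub_le_numIm K 2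
    have h3 : Nat.totient 2 = 1 := by decide
    rw [h3, one_mul] at h1
    exact_mod_cast h1.trans h2
  have e4 : (oddc (cj K) 4 : ℝ) ≤ 2 * numIm K 4 := by
    have h1 := oddc_le_sub (cj K) 4 (by norm_num)
    have h2 := sub_le_numIm K 4
    have h3 : Nat.totient 4 = 2 := by decide
    rw [h3] at h1
    have h4 : oddc (cj K) 4 ≤ 2 * numIm K 4 := h1.trans (Nat.mul_le_mul_left 2 h2)
    exact_mod_cast h4
  have e6 : (oddc (cj K) 6 : ℝ) ≤ 2 * numIm K 6 := by
    have h1 := oddc_le_sub (cj K) 6 (by norm_num)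
    have h2 := sub_le_numIm K 6
    have h3 : Nat.totient 6 = 2 := by decide
    rw [h3] at h1
    have h4 : oddc (cj K) 6 ≤ 2 * numIm K 6 := h1.trans (Nat.mul_le_mul_left 2 h2)
    exact_mod_cast h4
  have h1 : 2 * (oddc (cj K) 4 : ℝ) + 3 * oddc (cj K) 6 + 648 ≤
      4 * numIm K 4 + 6 * numIm K 6 + 648 := by linarith
  gcongr

theorem bad_le_rank {g : ℕ} (hg : Module.finrank ℚ K = 2 * g) (r : ℕ)
    (S : Finset (K ≃ₐ[ℚ] K)) (hS : S.card ≤ r)
    (hcl : Subgroup.closure (S : Set (K ≃ₐ[ℚ] K)) = ⊤) :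
    (Nat.card {Φ : Finset (K →+* QBar) // IsCMType K Φ ∧
      ¬ (IsPrimitive Φ ∧ TateByDivisors Φ)} : ℝ) ≤
      2 ^ g * (2 ^ r / Real.sqrt g + (2 * 4 ^ r + 3 * 6 ^ r + 648) / g) := by
  refine (bad_le K hg).trans ?_
  have e2 : (oddc (cj K) 2 : ℝ) ≤ 2 ^ r := by
    exact_mod_cast oddc_le_rank (cj K) 2 r (by norm_num) S hS hcl
  have e4 : (oddc (cj K) 4 : ℝ) ≤ 4 ^ r := by
    exact_mod_cast oddc_le_rank (cj K) 4 r (by norm_num) S hS hcl
  have e6 : (oddc (cj K) 6 : ℝ) ≤ 6 ^ r := by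
    exact_mod_cast oddc_le_rank (cj K) 6 r (by norm_num) S hS hcl
  gcongr

end abelian

end Pool.Agent.CMT
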